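import Pool.Agent.K1H87.KT.Ranked

/-!
# Boxes: a separate bound for every coordinate
-/

set_option autoImplicit false

namespace Pool.Agent.K1H87.KT

open Finset Real

/-- One stage in which the rows of `H` are kept. -/
theorem one_stage' {d : ℕ} {J : Type} [Fintype J] (a : Fin d → J → ℝ) (t : ℝ) (ht : 1 ≤ t)
    (a1 : ∀ i j, |a i j| ≤ 1) (hcol : ∀ j, ∑ i, a i j ^ 2 ≤ t) (x0 : J → ℝ)
    (hx0 : ∀ j, |x0 j| ≤ 1) (H : Finset (Fin d)) (M : ℝ) (hM : 1 ≤ M)
    (b : Fin d → ℝ) (hb0 : ∀ i, 0 < b i) (hb : ∀ i, 1 ≤ b i ∨ ∑ j, a i j ^ 2 ≤ t * b i ^ 4) :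
    ∃ x : J → ℝ, (∀ j, |x j| ≤ 1) ∧ (∀ j, |x0 j| = 1 → x j = x0 j) ∧
      (∀ i ∈ H, ∑ j, a i j * (x j - x0 j) = 0) ∧
      (∀ i, |∑ j, a i j * (x j - x0 j)| ≤ 3120 * Real.sqrt t * Real.sqrt (Real.sqrt M) * min 1 (b i) ∧
        |∑ j, a i j * (x j - x0 j)| ≤ 140058 * Real.sqrt t * (1 + Real.sqrt (M / lam0 t))) ∧
      ((H167FK.Sys.alive x).card : ℝ) ≤ 20 * H.card + 2 * (Fintype.card J : ℝ) * exp (-M) := by
  classical
  let Q : Blk (Fin d) J :=
    { a := a
      I0 := H
      I1 := Finset.univ
      t := t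
      ht := ht
      M := M
      hM := hM
      a1 := a1
      col := hcol
      x0 := x0
      hx0 := hx0
      τ := b
      τ_pos := fun i _ => hb0 i
      τ_mass := fun i _ => hb i }
  have hQh : Q.h = Real.sqrt (960 * M) := rfl
  have hQt : Q.t = t := rfl
  have hQC : Q.C0 = 520 * Real.sqrt t + 753 * Real.sqrt (960 * M) * (1 + Real.log t) ^ (3 / 2 : ℝ) :=
    rfl
  obtain ⟨x, h1, h2, h3, h4, h5⟩ := Q.block
  have hst : 0 ≤ Real.sqrt t := Real.sqrt_nonneg t
  have hM0 : 0 ≤ M := by linarith
  have hsM : 1 ≤ Real.sqrt M := Real.one_le_sqrt.2 hM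
  have hl := lam0_ge t
  refine ⟨x, h1, h2, h3, fun i => ?_, h5⟩
  obtain ⟨e1, e2⟩ := h4 i (Finset.mem_univ i)
  have h960 : Real.sqrt (960 * M) ≤ 31 * Real.sqrt M := by
    rw [Real.sqrt_mul (by norm_num)]
    apply mul_le_mul_of_nonneg_right _ (by linarith)
    rw [Real.sqrt_le_left (by norm_num)]
    norm_num
  constructor
  · refine e2.trans ?_
    rw [hQh, hQt]
    have h6 : 0 ≤ min 1 (b i) := le_min zero_le_one (hb0 i).le
    have h7 : Real.sqrt (Real.sqrt (960 * M)) ≤ 6 * Real.sqrt (Real.sqrt M) := by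
      have h8 : Real.sqrt (960 * M) ≤ (6 * Real.sqrt (Real.sqrt M)) ^ 2 := by
        rw [mul_pow, Real.sq_sqrt (by linarith)]
        linarith
      have h9 := Real.sqrt_le_sqrt h8
      rwa [Real.sqrt_sq (by positivity)] at h9
    calc 520 * Real.sqrt (Real.sqrt (960 * M)) * Real.sqrt t * min 1 (b i)
        ≤ 520 * (6 * Real.sqrt (Real.sqrt M)) * Real.sqrt t * min 1 (b i) := by gcongr
      _ = _ := by ring
  · refine e1.trans ?_
    rw [hQC]
    have hsl : 0 < Real.sqrt (lam0 t) := Real.sqrt_pos.2 (by linarith)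
    have hlt : 0 ≤ Real.log t := Real.log_nonneg ht
    have h6 : (1 + Real.log t) ^ (3 / 2 : ℝ) ≤ 6 * Real.sqrt t / Real.sqrt (lam0 t) := by
      rw [le_div_iff₀ hsl, mul_comm]
      exact lam0_sqrt t ht
    have h7 : 753 * Real.sqrt (960 * M) * (1 + Real.log t) ^ (3 / 2 : ℝ)
        ≤ 753 * (31 * Real.sqrt M) * (6 * Real.sqrt t / Real.sqrt (lam0 t)) := by
      have h8 : 0 ≤ (1 + Real.log t) ^ (3 / 2 : ℝ) := by positivity
      gcongr
    rw [Real.sqrt_div hM0]
    calc 520 * Real.sqrt t + 753 * Real.sqrt (960 * M) * (1 + Real.log t) ^ (3 / 2 : ℝ)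
        ≤ 140058 * Real.sqrt t + 753 * (31 * Real.sqrt M) * (6 * Real.sqrt t / Real.sqrt (lam0 t)) := by
          linarith
      _ = 140058 * Real.sqrt t * (1 + Real.sqrt M / Real.sqrt (lam0 t)) := by ring

/-- the exponent of a row -/
noncomputable def YY (N : ℕ) (μ : ℝ) : ℝ := min (20 + 4 * μ) (1 + Real.log N)

theorem YY_ge {N : ℕ} (hN : 1 ≤ N) {μ : ℝ} (hμ : 0 ≤ μ) : 1 ≤ YY N μ := by
  unfold YY
  have h2 : 0 ≤ Real.log (N : ℝ) := Real.log_nonneg (by exact_mod_cast hN)
  exact le_min (by linarith) (by linarith)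

/-- The number of rows that are kept. -/
theorem card_H {d : ℕ} (r μ : Fin d → ℝ) (hr0 : ∀ i, 0 ≤ r i)
    (hsum : ∑ i, min 1 (r i) * exp (-μ i) ≤ 1) (x : ℝ) (hx : 1 ≤ x) (H : Finset (Fin d))
    (hH : ∀ i ∈ H, 20 + 4 * μ i < x ∧ exp (-(x / 4)) ≤ r i) :
    (H.card : ℝ) ≤ exp ((x - 1) / 2) / 40 := by
  have hη1 : exp (-(x / 4)) ≤ 1 := by rw [Real.exp_le_one_iff]; linarith
  have h1 : ∀ i ∈ H, exp (-(x / 4)) * exp (-(x / 4 - 5)) ≤ min 1 (r i) * exp (-μ i) := by
    intro i hi
    obtain ⟨h2, h3⟩ := hH i hi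
    apply mul_le_mul (le_min hη1 h3) (exp_le_exp.2 (by linarith)) (exp_pos _).le
      (le_min zero_le_one (hr0 i))
  have h2 : (H.card : ℝ) * (exp (-(x / 4)) * exp (-(x / 4 - 5))) ≤ 1 := by
    rw [← nsmul_eq_mul]
    refine (Finset.card_nsmul_le_sum H _ _ h1).trans (le_trans ?_ hsum)
    refine Finset.sum_le_sum_of_subset_of_nonneg (Finset.subset_univ _) fun i _ _ => ?_
    exact mul_nonneg (le_min zero_le_one (hr0 i)) (exp_pos _).le
  rw [← exp_add] at h2
  have h3 : -(x / 4) + -(x / 4 - 5) = -((x - 1) / 2) + 9 / 2 := by ring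
  rw [h3, exp_add, exp_neg] at h2
  have h4 : (40 : ℝ) ≤ exp (9 / 2) := by
    have h5 : exp (9 / 2) = exp (1 / 2) ^ 9 := by rw [← exp_nat_mul]; norm_num
    have h6 : (3 / 2 : ℝ) ≤ exp (1 / 2) := by
      have := Real.add_one_le_exp (1 / 2 : ℝ)
      linarith
    have h7 : exp 4 = exp 1 ^ 4 := by rw [← exp_nat_mul]; norm_num
    have h8 : (2.7 : ℝ) ^ 4 ≤ exp 1 ^ 4 := by
      apply pow_le_pow_left₀ (by norm_num)
      have := Real.exp_one_gt_d9
      linarith
    have h9 : exp (9 / 2) = exp 4 * exp (1 / 2) := by rw [← exp_add]; norm_num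
    rw [h9, h7]
    have h10 : (53 : ℝ) ≤ (2.7 : ℝ) ^ 4 := by norm_num
    nlinarith [exp_pos (1 / 2 : ℝ)]
  set E : ℝ := exp ((x - 1) / 2) with hE
  have hEpos : 0 < E := exp_pos _
  have hc0 : (0 : ℝ) ≤ H.card := Nat.cast_nonneg _
  have h5 : (H.card : ℝ) * 40 ≤ E := by
    have h6 : (H.card : ℝ) * (E⁻¹ * 40) ≤ 1 := by
      refine le_trans ?_ h2
      gcongr
    calc (H.card : ℝ) * 40 = ((H.card : ℝ) * (E⁻¹ * 40)) * E := by field_simp
      _ ≤ 1 * E := mul_le_mul_of_nonneg_right h6 hEpos.le
      _ = E := one_mul _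
  rw [le_div_iff₀ (by norm_num)]
  exact h5

/-- The numbers of the main stage. -/
theorem stage_num' {N : ℕ} (hN : 6 < 1 + Real.log N) :
    ⌊2 * Real.sqrt N⌋₊ < N ∧ 1 ≤ ⌊2 * Real.sqrt N⌋₊ ∧
    1 + Real.log ⌊2 * Real.sqrt N⌋₊ ≤ 7 / 10 * (1 + Real.log N) ∧
    20 * (exp (((1 + Real.log N) - 1) / 2) / 40) + 2 * N * exp (-((1 + Real.log N) / 2))
      ≤ 2 * Real.sqrt N := by
  obtain ⟨h1, h2, h3, -, -⟩ := stage_num hN
  refine ⟨h1, h2, h3, ?_⟩
  have hN1 : 1 ≤ N := by
    rcases Nat.eq_zero_or_pos N with h | h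
    · rw [h] at hN
      simp at hN
    · exact h
  have hNR : (1 : ℝ) ≤ N := by exact_mod_cast hN1
  set r : ℝ := Real.sqrt N with hr
  have hr2 : r ^ 2 = N := Real.sq_sqrt (by linarith)
  have hr1 : 1 ≤ r := by rw [hr]; exact Real.one_le_sqrt.2 hNR
  have e1 : exp (((1 + Real.log N) - 1) / 2) = r := by
    have : ((1 + Real.log (N : ℝ)) - 1) / 2 = Real.log r := by
      rw [hr, Real.log_sqrt (by linarith)]
      ring
    rw [this, exp_log (by linarith)]
  have e2 : exp (-((1 + Real.log N) / 2)) = exp (-(1 / 2 : ℝ)) * (1 / r) := by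
    have h3 : -((1 + Real.log (N : ℝ)) / 2) = -(1 / 2 : ℝ) + -(Real.log r) := by
      rw [hr, Real.log_sqrt (by linarith)]
      ring
    rw [h3, exp_add, exp_neg (Real.log r), exp_log (by linarith), one_div r]
  have e3 : exp (-(1 / 2 : ℝ)) ≤ 2 / 3 := by
    rw [exp_neg, inv_le_comm₀ (exp_pos _) (by norm_num)]
    have := Real.add_one_le_exp (1 / 2 : ℝ)
    linarith
  rw [e1, e2]
  have h4 : 2 * (N : ℝ) * (exp (-(1 / 2 : ℝ)) * (1 / r)) = 2 * r * exp (-(1 / 2 : ℝ)) := by
    rw [← hr2]
    field_simp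
  rw [h4]
  nlinarith

/-- The error of the light rows. -/
theorem light_err {x x' : ℝ} (hx : 6 < x) (hx' : 1 ≤ x') (hxx : x' ≤ 7 / 10 * x) :
    3120 * Real.sqrt (Real.sqrt (x / 2)) * min 1 (exp (-(x / 16))) + 4 * 10 ^ 6 * (1 - 1 / x')
      ≤ 4 * 10 ^ 6 * (1 - 1 / x) := by
  have hx0 : 0 < x := by linarith
  have hx'0 : 0 < x' := by linarith
  have h1 : Real.sqrt (Real.sqrt (x / 2)) ≤ x := by
    rw [Real.sqrt_le_left hx0.le, Real.sqrt_le_left (by positivity)]
    have h2 : 1 ≤ x := by linarith
    have h3 : x ≤ (x ^ 2) ^ 2 := by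
      calc x = x ^ 1 := (pow_one x).symm
        _ ≤ x ^ 4 := pow_le_pow_right₀ h2 (by norm_num)
        _ = (x ^ 2) ^ 2 := by ring
    linarith
  have h2 : exp (-(x / 16)) ≤ 512 / x ^ 2 := by
    have h3 : (x / 16) ^ 2 / 2 ≤ exp (x / 16) := by
      have := Real.pow_div_factorial_le_exp (x / 16) (by positivity) 2
      norm_num [Nat.factorial] at this
      exact this
    rw [exp_neg, inv_le_comm₀ (exp_pos _) (by positivity)]
    refine le_trans (le_of_eq ?_) h3
    field_simp
    norm_num
  have h3 : 3120 * Real.sqrt (Real.sqrt (x / 2)) * min 1 (exp (-(x / 16))) ≤ 1597440 / x := by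
    calc 3120 * Real.sqrt (Real.sqrt (x / 2)) * min 1 (exp (-(x / 16)))
        ≤ 3120 * x * (512 / x ^ 2) := by
          apply mul_le_mul _ ((min_le_right _ _).trans h2)
            (le_min zero_le_one (exp_pos _).le) (by positivity)
          linarith
      _ = 1597440 / x := by
          field_simp
          norm_num
  have h4 : 10 / (7 * x) ≤ 1 / x' := by
    rw [div_le_div_iff₀ (by positivity) hx'0]
    linarith
  have h5 : 10 / (7 * x) = 10 / 7 * (1 / x) := by field_simp
  have h6 : 1597440 / x = 1597440 * (1 / x) := by ring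
  have h7 : 0 < 1 / x := by positivity
  rw [h5] at h4
  rw [h6] at h3
  linarith

/-- **Boxes**, finite form. -/
theorem boxes (t : ℝ) (ht : 1 ≤ t) (N : ℕ) : 1 ≤ N → ∀ (J : Type) [Fintype J] (d : ℕ)
    (a : Fin d → J → ℝ), (∀ i j, |a i j| ≤ 1) → (∀ j, ∑ i, a i j ^ 2 ≤ t) →
    ∀ μ : Fin d → ℝ, (∀ i, 0 ≤ μ i) → ∑ i, min 1 ((∑ j, a i j ^ 2) / t) * exp (-μ i) ≤ 1 →
    ∀ x0 : J → ℝ, (∀ j, |x0 j| ≤ 1) → Fintype.card J ≤ N →
    ∃ x : J → ℝ, (∀ j, |x j| = 1) ∧ (∀ j, |x0 j| = 1 → x j = x0 j) ∧
      ∀ i : Fin d, |∑ j, a i j * (x j - x0 j)|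
          ≤ Real.sqrt t * (20 * 140058 * Real.sqrt (Real.sqrt (YY N (μ i)))
            + 4 * 10 ^ 6 * (1 - 1 / (1 + Real.log N))) ∧
        |∑ j, a i j * (x j - x0 j)|
          ≤ Real.sqrt t * (20 * 140058 * (1 + Real.sqrt (YY N (μ i) / lam0 t))
            + 4 * 10 ^ 6 * (1 - 1 / (1 + Real.log N))) := by
  classical
  induction N using Nat.strong_induction_on with
  | _ N ih =>
    intro hN J _ d a a1 hcol μ hμ0 hμ x0 hx0 hJ
    have hst : 0 ≤ Real.sqrt t := Real.sqrt_nonneg t
    have hl := lam0_ge t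
    have ht0 : 0 < t := by linarith
    have hNR : (1 : ℝ) ≤ N := by exact_mod_cast hN
    have hlogN : 0 ≤ Real.log N := Real.log_nonneg hNR
    have hJR : (Fintype.card J : ℝ) ≤ N := by exact_mod_cast hJ
    set x : ℝ := 1 + Real.log N with hx
    have hx1 : 1 ≤ x := by linarith
    have hB : 0 ≤ 4 * 10 ^ 6 * (1 - 1 / x) := by
      have : 1 / x ≤ 1 := by rw [div_le_one (by linarith)]; exact hx1
      nlinarith
    by_cases hsmall : x ≤ max (lam0 t) 6
    · -- one stage suffices
      obtain ⟨z, h1, h2, -, h4, h5⟩ := one_stage a t ht a1 hcol x0 hx0 0 (x + 1) (by linarith)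
      have hal : (H167FK.Sys.alive z).card = 0 := by
        have h6 : ((H167FK.Sys.alive z).card : ℝ) < 1 := by
          refine lt_of_le_of_lt h5 ?_
          have h7 : exp (-(x + 1)) = exp (-2) * (1 / N) := by
            have : -(x + 1) = -2 + -Real.log N := by rw [hx]; ring
            rw [this, exp_add, exp_neg (Real.log N), exp_log (by linarith), one_div (N : ℝ)]
          have h8 : exp (-2) ≤ 1 / 4 := by
            rw [exp_neg, inv_le_comm₀ (exp_pos _) (by norm_num)]
            have h9 : exp 2 = exp 1 ^ 2 := by rw [← exp_nat_mul]; norm_num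
            rw [h9]
            have := Real.exp_one_gt_d9
            nlinarith
          rw [h7]
          calc 20 * ((0 : ℕ) : ℝ) + 2 * (Fintype.card J : ℝ) * (exp (-2) * (1 / N))
              ≤ 2 * (N : ℝ) * ((1 / 4) * (1 / N)) := by
                push_cast
                rw [mul_zero, zero_add]
                gcongr
            _ = 1 / 2 := by field_simp; norm_num
            _ < 1 := by norm_num
        have h7 : (H167FK.Sys.alive z).card < 1 := by exact_mod_cast h6
        omega
      refine ⟨z, fun j => ?_, h2, fun i => ?_⟩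
      · by_contra hcon
        have : j ∈ H167FK.Sys.alive z := mem_alive.2 (lt_of_le_of_ne (h1 j) hcon)
        rw [Finset.card_eq_zero] at hal
        rw [hal] at this
        exact absurd this (Finset.notMem_empty j)
      · have hX := YY_ge hN (hμ0 i)
        have herr : |∑ j, a i j * (z j - x0 j)| ≤ Real.sqrt t * (20 * 140058) := by
          rcases le_max_iff.1 hsmall with h6 | h6
          · refine (h4 i).2.trans ?_
            have h7 : Real.sqrt ((x + 1) / lam0 t) ≤ 2 := by
              rw [Real.sqrt_le_left (by norm_num), div_le_iff₀ (by linarith)]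
              nlinarith
            nlinarith
          · refine (h4 i).1.trans ?_
            have h7 : Real.sqrt (Real.sqrt (x + 1)) ≤ 2 := by
              rw [Real.sqrt_le_left (by norm_num), Real.sqrt_le_left (by norm_num)]
              linarith
            nlinarith
        have e1 : 1 ≤ Real.sqrt (Real.sqrt (YY N (μ i))) := by
          rw [Real.one_le_sqrt, Real.one_le_sqrt]; exact hX
        have e2 : 0 ≤ Real.sqrt (YY N (μ i) / lam0 t) := Real.sqrt_nonneg _
        constructor
        · refine herr.trans (mul_le_mul_of_nonneg_left ?_ hst)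
          linarith
        · refine herr.trans (mul_le_mul_of_nonneg_left ?_ hst)
          linarith
    · push Not at hsmall
      have hx6 : 6 < x := lt_of_le_of_lt (le_max_right _ _) hsmall
      have hxl : lam0 t < x := lt_of_le_of_lt (le_max_left _ _) hsmall
      obtain ⟨n1, n2, n3, n4⟩ := stage_num' (N := N) hx6
      set N' : ℕ := ⌊2 * Real.sqrt N⌋₊ with hN'
      have hN'R : (1 : ℝ) ≤ N' := by exact_mod_cast n2
      set x' : ℝ := 1 + Real.log N' with hx'
      have hx'1 : 1 ≤ x' := by
        have := Real.log_nonneg hN'R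
        linarith
      have hr0 : ∀ i, 0 ≤ (∑ j, a i j ^ 2) / t := fun i =>
        div_nonneg (Finset.sum_nonneg fun j _ => sq_nonneg _) ht0.le
      set H : Finset (Fin d) := Finset.univ.filter
        (fun i => 20 + 4 * μ i < x ∧ exp (-(x / 4)) ≤ (∑ j, a i j ^ 2) / t) with hH
      have hHcard := card_H (fun i => (∑ j, a i j ^ 2) / t) μ hr0 hμ x hx1 H
        (fun i hi => (Finset.mem_filter.1 hi).2)
      obtain ⟨z, h1, h2, h3, h4, h5⟩ := one_stage' a t ht a1 hcol x0 hx0 H (x / 2) (by linarith)
        (fun i => if exp (-(x / 4)) ≤ (∑ j, a i j ^ 2) / t then 1 else exp (-(x / 16)))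
        (fun i => by
          split_ifs
          · exact one_pos
          · exact exp_pos _)
        (fun i => by
          by_cases h : exp (-(x / 4)) ≤ (∑ j, a i j ^ 2) / t
          · left; rw [if_pos h]
          · right
            rw [if_neg h]
            push Not at h
            rw [div_lt_iff₀ ht0] at h
            have e1 : exp (-(x / 16)) ^ 4 = exp (-(x / 4)) := by
              rw [← exp_nat_mul]
              congr 1
              push_cast
              ring
            rw [e1]
            linarith)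
      have hal : (H167FK.Sys.alive z).card ≤ N' := by
        apply Nat.le_floor
        refine h5.trans ?_
        have h6 : 2 * (Fintype.card J : ℝ) * exp (-(x / 2)) ≤ 2 * (N : ℝ) * exp (-(x / 2)) := by
          have := exp_pos (-(x / 2))
          gcongr
        linarith
      obtain ⟨y, g1, g2, g3⟩ := ih N' n1 n2 {j : J // |z j| < 1} d (fun i j => a i j)
        (fun i j => a1 i j) (fun j => hcol j) μ hμ0 (by
          refine le_trans (Finset.sum_le_sum fun i _ => ?_) hμ
          apply mul_le_mul_of_nonneg_right _ (exp_pos _).le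
          apply min_le_min_left
          apply div_le_div_of_nonneg_right _ ht0.le
          have e1 : ∑ j : {j : J // |z j| < 1}, a i j ^ 2
              = ∑ j ∈ Finset.univ.filter (fun j => |z j| < 1), a i j ^ 2 := by
            rw [Finset.sum_subtype (Finset.univ.filter (fun j => |z j| < 1))
              (p := fun j => |z j| < 1) (fun j => by simp) (fun j => a i j ^ 2)]
          rw [e1]
          exact Finset.sum_le_sum_of_subset_of_nonneg (Finset.subset_univ _)
            (fun j _ _ => sq_nonneg _))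
        (fun j => z j) (fun j => h1 j) (by
          rw [Fintype.card_subtype]
          refine le_trans (Finset.card_le_card ?_) hal
          intro j hj
          rw [mem_alive]
          exact (Finset.mem_filter.1 hj).2)
      let w : J → ℝ := fun j => if h : |z j| < 1 then y ⟨j, h⟩ else z j
      have hw1 : ∀ j, |w j| = 1 := by
        intro j
        by_cases h : |z j| < 1
        · simp only [w, dif_pos h]; exact g1 _
        · simp only [w, dif_neg h]; exact le_antisymm (h1 j) (not_lt.1 h)
      have hw2 : ∀ j, |x0 j| = 1 → w j = x0 j := by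
        intro j hj
        have h6 := h2 j hj
        have h7 : ¬ |z j| < 1 := by rw [h6, hj]; exact lt_irrefl _
        simp only [w, dif_neg h7]
        exact h6
      have hsum : ∀ i, ∑ j, a i j * (w j - x0 j)
          = ∑ j, a i j * (z j - x0 j) + ∑ j : {j : J // |z j| < 1}, a i j * (y j - z j) := by
        intro i
        have h6 : ∑ j : {j : J // |z j| < 1}, a i j * (y j - z j)
            = ∑ j, a i j * (w j - z j) := by
          have h7 : ∀ j : {j : J // |z j| < 1}, a i j * (y j - z j) = a i j * (w j - z j) := by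
            intro j
            have : w j = y j := by simp only [w, dif_pos j.2]
            rw [this]
          rw [Finset.sum_congr rfl fun j _ => h7 j]
          have h9 : ∑ j : {j : J // |z j| < 1}, a i j * (w j - z j)
              = ∑ j ∈ Finset.univ.filter (fun j => |z j| < 1), a i j * (w j - z j) := by
            rw [Finset.sum_subtype (Finset.univ.filter (fun j => |z j| < 1))
              (p := fun j => |z j| < 1) (fun j => by simp) (fun j => a i j * (w j - z j))]
          rw [h9, Finset.sum_filter]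
          refine Finset.sum_congr rfl fun j _ => ?_
          split_ifs with h
          · rfl
          · simp only [w, dif_neg h, sub_self, mul_zero]
        rw [h6, ← Finset.sum_add_distrib]
        exact Finset.sum_congr rfl fun j _ => by ring
      refine ⟨w, hw1, hw2, fun i => ?_⟩
      have hYY' : YY N' (μ i) ≤ 7 / 10 * x := (min_le_right _ _).trans n3
      have hmono : YY N' (μ i) ≤ YY N (μ i) := by
        unfold YY
        apply min_le_min_left
        linarith
      obtain ⟨g4, g5⟩ := g3 i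
      rw [hsum i]
      have hBB : 1 - 1 / x' ≤ 1 - 1 / x := by
        have : 1 / x ≤ 1 / x' := one_div_le_one_div_of_le (by linarith) (by linarith)
        linarith
      have m1 : Real.sqrt (Real.sqrt (YY N' (μ i))) ≤ Real.sqrt (Real.sqrt (YY N (μ i))) :=
        Real.sqrt_le_sqrt (Real.sqrt_le_sqrt hmono)
      have m2 : Real.sqrt (YY N' (μ i) / lam0 t) ≤ Real.sqrt (YY N (μ i) / lam0 t) :=
        Real.sqrt_le_sqrt (div_le_div_of_nonneg_right hmono (by linarith))
      by_cases hi : 20 + 4 * μ i < x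
      · by_cases hi2 : exp (-(x / 4)) ≤ (∑ j, a i j ^ 2) / t
        · rw [h3 i (Finset.mem_filter.2 ⟨Finset.mem_univ _, hi, hi2⟩), zero_add]
          constructor
          · refine g4.trans (mul_le_mul_of_nonneg_left ?_ hst)
            linarith
          · refine g5.trans (mul_le_mul_of_nonneg_left ?_ hst)
            linarith
        · have e0 := (h4 i).1
          rw [if_neg hi2] at e0
          have e1 := light_err hx6 hx'1 n3
          have e2 : |∑ j, a i j * (z j - x0 j)| ≤ Real.sqrt t *
              (3120 * Real.sqrt (Real.sqrt (x / 2)) * min 1 (exp (-(x / 16)))) := by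
            refine e0.trans (le_of_eq ?_)
            ring
          constructor
          · refine (abs_add_le _ _).trans ((add_le_add e2 g4).trans ?_)
            rw [← mul_add]
            apply mul_le_mul_of_nonneg_left _ hst
            linarith
          · refine (abs_add_le _ _).trans ((add_le_add e2 g5).trans ?_)
            rw [← mul_add]
            apply mul_le_mul_of_nonneg_left _ hst
            linarith
      · push Not at hi
        have hXe : YY N (μ i) = x := min_eq_right hi
        rw [hXe]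
        have e0 := (h4 i).1
        have hmin : min 1 (if exp (-(x / 4)) ≤ (∑ j, a i j ^ 2) / t then 1 else exp (-(x / 16)))
            ≤ (1 : ℝ) := min_le_left _ _
        have hss := Real.sqrt_nonneg (Real.sqrt (x / 2))
        have e00 : |∑ j, a i j * (z j - x0 j)| ≤ Real.sqrt t *
            (140058 * Real.sqrt (Real.sqrt (x / 2))) := by
          refine e0.trans ?_
          calc _ ≤ 3120 * Real.sqrt t * Real.sqrt (Real.sqrt (x / 2)) * 1 :=
                mul_le_mul_of_nonneg_left hmin (by positivity)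
            _ = Real.sqrt t * (3120 * Real.sqrt (Real.sqrt (x / 2))) := by ring
            _ ≤ _ := by
                apply mul_le_mul_of_nonneg_left _ hst
                nlinarith
        have e01 : |∑ j, a i j * (z j - x0 j)| ≤ Real.sqrt t *
            (140058 * (1 + Real.sqrt (x / 2 / lam0 t))) := by
          refine (h4 i).2.trans (le_of_eq ?_)
          ring
        constructor
        · refine (abs_add_le _ _).trans ((add_le_add e00 g4).trans ?_)
          rw [← mul_add]
          apply mul_le_mul_of_nonneg_left _ hst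
          have e1 := step1 (by linarith : 0 ≤ x)
          have e2 : Real.sqrt (Real.sqrt (YY N' (μ i))) ≤ Real.sqrt (Real.sqrt (7 / 10 * x)) :=
            Real.sqrt_le_sqrt (Real.sqrt_le_sqrt hYY')
          linarith
        · refine (abs_add_le _ _).trans ((add_le_add e01 g5).trans ?_)
          rw [← mul_add]
          apply mul_le_mul_of_nonneg_left _ hst
          have e1 := step2 hl hxl.le
          have e2 : Real.sqrt (YY N' (μ i) / lam0 t) ≤ Real.sqrt (7 / 10 * x / lam0 t) :=
            Real.sqrt_le_sqrt (div_le_div_of_nonneg_right hYY' (by linarith))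
          linarith

end Pool.Agent.K1H87.KT
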