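import Pool.Agent.H167R2.BFLin
import Pool.Agent.H167R2.FKBlock

/-!
# Reduction of the number of fractional coordinates (from the starting file `KNLin`)
-/

set_option autoImplicit false

namespace Pool.Agent.K1H87.KT

open Finset Real

variable {I J : Type*} [Fintype I] [Fintype J]

theorem mem_alive {x : J → ℝ} {v : J} : v ∈ H167FK.Sys.alive x ↔ |x v| < 1 := by
  classical
  unfold H167FK.Sys.alive
  rw [Finset.mem_filter]
  exact ⟨fun h => h.2, fun h => ⟨Finset.mem_univ _, h⟩⟩

/-- `z` is a point of the cube that agrees with `y` wherever `y` is integral. -/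
def Ext {J : Type*} (y z : J → ℝ) : Prop := (∀ j, |z j| ≤ 1) ∧ ∀ j, |y j| = 1 → z j = y j

theorem Ext.trans {J : Type*} {x y z : J → ℝ} (h1 : Ext x y) (h2 : Ext y z) : Ext x z := by
  refine ⟨h2.1, fun j hj => ?_⟩
  have h3 := h1.2 j hj
  rw [h2.2 j (by rw [h3]; exact hj), h3]

/-- Moving to a point with few fractional coordinates without changing the row sums. -/
theorem reduce (a : I → J → ℝ) : ∀ (n : ℕ) (x : J → ℝ), (∀ j, |x j| ≤ 1) →
    (H167FK.Sys.alive x).card ≤ n →
    ∃ y : J → ℝ, Ext x y ∧ (∀ i, ∑ v, a i v * (y v - x v) = 0) ∧
      (H167FK.Sys.alive y).card ≤ Fintype.card I := by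
  classical
  intro n
  induction n with
  | zero =>
    intro x hx hn
    exact ⟨x, ⟨hx, fun _ _ => rfl⟩, fun i => by simp, hn.trans (Nat.zero_le _)⟩
  | succ n ih =>
    intro x hx hn
    by_cases hc : (H167FK.Sys.alive x).card ≤ Fintype.card I
    · exact ⟨x, ⟨hx, fun _ _ => rfl⟩, fun i => by simp, hc⟩
    · push Not at hc
      obtain ⟨u, huF, ⟨v0, hv0, huv0⟩, hu⟩ := H167BF.exists_direction (H167FK.Sys.alive x)
        (Finset.univ : Finset I) (fun i => H167FK.Sys.lin (a i)) (by simpa using hc)
      have hu' : ∀ i, ∑ v, a i v * u v = 0 := by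
        intro i
        have := hu i (Finset.mem_univ i)
        rwa [H167FK.Sys.lin_apply] at this
      obtain ⟨s, hs0, hs1, k, hk, hkw, hkt⟩ := H167BF.ray_lemma
        (Finset.univ : Finset (J × Bool))
        (fun q => if q.2 then x q.1 else - x q.1) (fun q => if q.2 then u q.1 else - u q.1)
        (fun _ => 1)
        (by
          rintro ⟨v, b⟩ -
          have := abs_le.mp (hx v)
          cases b <;> simp <;> linarith)
        (by
          rcases lt_or_gt_of_ne huv0 with h | h
          · exact ⟨(v0, false), by simp, by simpa using h⟩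
          · exact ⟨(v0, true), by simp, by simpa using h⟩)
      set x' : J → ℝ := fun v => x v + s * u v with hx'
      have hbox : ∀ j, |x' j| ≤ 1 := by
        intro j
        have h1 := hs1 (j, true) (Finset.mem_univ _)
        have h2 := hs1 (j, false) (Finset.mem_univ _)
        simp only [if_true, Bool.false_eq_true, if_false] at h1 h2
        rw [abs_le]
        constructor
        · simp only [hx']; linarith
        · simp only [hx']; linarith
      have hfroz : ∀ j, |x j| = 1 → x' j = x j := by
        intro j hj
        have h1 : j ∉ H167FK.Sys.alive x := by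
          rw [mem_alive]; rw [hj]; exact lt_irrefl _
        simp only [hx', huF j h1, mul_zero, add_zero]
      have hk1 : k.1 ∈ H167FK.Sys.alive x := by
        by_contra hcon
        have h1 := huF k.1 hcon
        rcases hb : k.2 with _ | _
        · rw [hb] at hkw; simp [h1] at hkw
        · rw [hb] at hkw; simp [h1] at hkw
      have hk2 : k.1 ∉ H167FK.Sys.alive x' := by
        rw [mem_alive]
        intro hlt
        have h3 := abs_lt.mp hlt
        rcases hb : k.2 with _ | _
        · rw [hb] at hkt
          simp only [Bool.false_eq_true, if_false] at hkt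
          simp only [hx'] at h3
          linarith [h3.1]
        · rw [hb] at hkt
          simp only [if_true] at hkt
          simp only [hx'] at h3
          linarith [h3.2]
      have hsub : H167FK.Sys.alive x' ⊆ H167FK.Sys.alive x := by
        intro j hj
        by_contra hcon
        have h1 : x' j = x j := by simp only [hx', huF j hcon, mul_zero, add_zero]
        rw [mem_alive] at hj hcon
        rw [h1] at hj
        exact hcon hj
      have hlt : (H167FK.Sys.alive x').card < (H167FK.Sys.alive x).card := by
        apply Finset.card_lt_card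
        exact ⟨hsub, fun hcon => hk2 (hcon hk1)⟩
      obtain ⟨y, hy1, hy2, hy3⟩ := ih x' hbox (by omega)
      refine ⟨y, Ext.trans ⟨hbox, hfroz⟩ hy1, fun i => ?_, hy3⟩
      have h1 := hy2 i
      have h2 : ∑ v, a i v * (y v - x v) = ∑ v, a i v * (y v - x' v) + s * ∑ v, a i v * u v := by
        rw [Finset.mul_sum, ← Finset.sum_add_distrib]
        exact Finset.sum_congr rfl fun v _ => by simp only [hx']; ring
      rw [h2, h1, hu' i]; ring

end Pool.Agent.K1H87.KT
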