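import Pool.Agent.K1H87.KT.Iter
import Pool.Agent.K1H87.KT.Reduce
import Pool.Agent.H167R2.FKMinimax

/-!
# Distributions on signings with small tails
-/

set_option autoImplicit false

namespace Pool.Agent.K1H87.KT

open Finset Real

/-- The potential theorem, where the coordinates `±1` of the starting point are kept. -/
theorem potential' {I : Type*} [Fintype I] {n : ℕ} (a : I → Fin n → ℝ) (t : ℝ) (ht : 1 ≤ t)
    (a1 : ∀ i j, |a i j| ≤ 1)
    (hcol : ∀ j, ∑ i, a i j ^ 2 ≤ t) (x0 : Fin n → ℝ) (hx0 : ∀ j, |x0 j| ≤ 1)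
    (w : I → ℝ) (hw0 : ∀ i, 0 ≤ w i) :
    ∃ x : Fin n → ℝ, (∀ j, |x j| = 1) ∧ (∀ j, |x0 j| = 1 → x j = x0 j) ∧
      ∑ i, w i * Phi (lam0 t) ((∑ j, a i j * (x j - x0 j)) / Real.sqrt t)
        ≤ 10 * ∑ i, w i * (en a x0 i / t) := by
  classical
  obtain ⟨x, hx1, hx2⟩ := potential (fun i j => if |x0 j| < 1 then a i j else 0) t ht
    (fun i j => by
      split_ifs
      · exact a1 i j
      · simp)
    (fun j => by
      refine le_trans (Finset.sum_le_sum fun i _ => ?_) (hcol j)
      split_ifs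
      · exact le_rfl
      · rw [zero_pow two_ne_zero]; exact sq_nonneg _) x0 hx0 w hw0
  refine ⟨fun j => if |x0 j| < 1 then x j else x0 j, fun j => ?_, fun j hj => ?_, ?_⟩
  · show |if |x0 j| < 1 then x j else x0 j| = 1
    by_cases h : |x0 j| < 1
    · rw [if_pos h]; exact hx1 j
    · rw [if_neg h]; exact le_antisymm (hx0 j) (not_lt.1 h)
  · show (if |x0 j| < 1 then x j else x0 j) = x0 j
    rw [if_neg (by rw [hj]; exact lt_irrefl _)]
  · have h1 : ∀ i, ∑ j, a i j * ((if |x0 j| < 1 then x j else x0 j) - x0 j)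
        = ∑ j, (if |x0 j| < 1 then a i j else 0) * (x j - x0 j) := by
      intro i
      refine Finset.sum_congr rfl fun j _ => ?_
      split_ifs
      · rfl
      · ring
    have h2 : ∀ i, ∑ j, (if |x0 j| < 1 then a i j else 0) ^ 2 = en a x0 i := by
      intro i
      unfold en
      refine Finset.sum_congr rfl fun j _ => ?_
      split_ifs
      · rfl
      · norm_num
    simp only [h1]
    simp only [h2] at hx2
    exact hx2

/-- A distribution on the signings with small expectations of the potentials. -/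
theorem dist (m n : ℕ) (a : Fin m → Fin n → ℝ) (t : ℝ) (ht : 1 ≤ t)
    (a1 : ∀ i j, |a i j| ≤ 1)
    (hcol : ∀ j, ∑ i, a i j ^ 2 ≤ t) (x0 : Fin n → ℝ) (hx0 : ∀ j, |x0 j| ≤ 1) :
    ∃ P : (Fin n → ℤˣ) → ℝ, (∀ e, 0 ≤ P e) ∧ ∑ e, P e = 1 ∧
      (∀ e, P e ≠ 0 → ∀ j, |x0 j| = 1 → ((e j : ℤ) : ℝ) = x0 j) ∧
      ∀ i, ∑ e, P e * Phi (lam0 t) ((∑ j, a i j * (((e j : ℤ) : ℝ) - x0 j)) / Real.sqrt t)
        ≤ 10 * (en a x0 i / t) := by
  classical
  have ht0 : 0 < t := by linarith
  let S : (Fin n → ℤˣ) → Fin m → ℝ := fun e i =>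
    (∑ j, a i j * (((e j : ℤ) : ℝ) - x0 j)) / Real.sqrt t
  let good : Finset (Fin n → ℤˣ) :=
    Finset.univ.filter (fun e => ∀ j, |x0 j| = 1 → ((e j : ℤ) : ℝ) = x0 j)
  let zf : (Fin n → ℤˣ) → Fin m → ℝ := fun e i =>
    if en a x0 i = 0 then 0 else Phi (lam0 t) (S e i) * (t / en a x0 i)
  have hen0 : ∀ i, 0 ≤ en a x0 i := by
    intro i
    unfold en
    refine Finset.sum_nonneg fun j _ => ?_
    split_ifs
    · exact sq_nonneg _
    · exact le_rfl
  obtain ⟨w, hw0, hw1, hw2⟩ := H167FK.minimax (good.image zf) 10 (by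
    intro p hp
    obtain ⟨x, hx1, hx2, hx3⟩ := potential' a t ht a1 hcol x0 hx0
      (fun i => if en a x0 i = 0 then 0 else p i * (t / en a x0 i))
      (fun i => by
        show 0 ≤ if en a x0 i = 0 then 0 else p i * (t / en a x0 i)
        split_ifs
        · exact le_rfl
        · exact mul_nonneg (hp i) (div_nonneg ht0.le (hen0 i)))
    have hsgn : ∀ j, ∃ u : ℤˣ, ((u : ℤ) : ℝ) = x j := by
      intro j
      rcases eq_or_eq_neg_of_abs_eq (hx1 j) with h | h
      · exact ⟨1, by rw [h]; simp⟩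
      · exact ⟨-1, by rw [h]; simp⟩
    choose e he using hsgn
    refine ⟨zf e, Finset.mem_image_of_mem _ ?_, ?_⟩
    · simp only [good, Finset.mem_filter, Finset.mem_univ, true_and]
      intro j hj
      rw [he, hx2 j hj]
    · have h1 : ∀ i, p i * zf e i = (if en a x0 i = 0 then 0 else p i * (t / en a x0 i)) *
          Phi (lam0 t) ((∑ j, a i j * (x j - x0 j)) / Real.sqrt t) := by
        intro i
        simp only [zf, S]
        by_cases h : en a x0 i = 0
        · rw [if_pos h, if_pos h]; ring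
        · rw [if_neg h, if_neg h]
          simp only [he]
          ring
      simp only [h1]
      refine hx3.trans ?_
      refine mul_le_mul_of_nonneg_left (Finset.sum_le_sum fun i _ => ?_) (by norm_num)
      by_cases h : en a x0 i = 0
      · rw [if_pos h, zero_mul]; exact hp i
      · rw [if_neg h]
        apply le_of_eq
        field_simp)
  have hrep : ∀ z ∈ good.image zf, ∃ e ∈ good, zf e = z := fun z hz => Finset.mem_image.1 hz
  choose! rep hrep1 hrep2 using hrep
  have hsum : ∀ f : (Fin n → ℤˣ) → ℝ,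
      ∑ e, (∑ z ∈ good.image zf, if rep z = e then w z else 0) * f e
        = ∑ z ∈ good.image zf, w z * f (rep z) := by
    intro f
    simp only [Finset.sum_mul]
    rw [Finset.sum_comm]
    refine Finset.sum_congr rfl fun z _ => ?_
    rw [Finset.sum_eq_single (rep z)]
    · rw [if_pos rfl]
    · intro e _ he
      rw [if_neg (Ne.symm he), zero_mul]
    · intro h; exact absurd (Finset.mem_univ _) h
  refine ⟨fun e => ∑ z ∈ good.image zf, if rep z = e then w z else 0, fun e => ?_, ?_, ?_, ?_⟩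
  · refine Finset.sum_nonneg fun z hz => ?_
    split_ifs
    · exact hw0 z hz
    · exact le_rfl
  · have h1 := hsum (fun _ => 1)
    simp only [mul_one] at h1
    rw [h1, hw1]
  · intro e he
    obtain ⟨z, hz, hz2⟩ := Finset.exists_ne_zero_of_sum_ne_zero he
    have hze : rep z = e := by
      by_contra hcon
      rw [if_neg hcon] at hz2
      exact hz2 rfl
    have h1 := hrep1 z hz
    rw [hze] at h1
    simp only [good, Finset.mem_filter, Finset.mem_univ, true_and] at h1
    exact h1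
  · intro i
    rw [hsum (fun e => Phi (lam0 t) ((∑ j, a i j * (((e j : ℤ) : ℝ) - x0 j)) / Real.sqrt t))]
    by_cases h : en a x0 i = 0
    · have h1 : ∀ z ∈ good.image zf, w z * Phi (lam0 t)
          ((∑ j, a i j * ((((rep z) j : ℤ) : ℝ) - x0 j)) / Real.sqrt t) = 0 := by
        intro z hz
        have h2 := hrep1 z hz
        simp only [good, Finset.mem_filter, Finset.mem_univ, true_and] at h2
        have h3 : ∀ j, a i j * ((((rep z) j : ℤ) : ℝ) - x0 j) = 0 := by
          intro j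
          by_cases hj : |x0 j| < 1
          · have h4 := (Finset.sum_eq_zero_iff_of_nonneg (f := fun j => if |x0 j| < 1 then
              a i j ^ 2 else 0) (fun j _ => by
                show 0 ≤ if |x0 j| < 1 then a i j ^ 2 else 0
                split_ifs
                · exact sq_nonneg _
                · exact le_rfl)).1 h j (Finset.mem_univ j)
            simp only [if_pos hj] at h4
            rw [pow_eq_zero_iff two_ne_zero |>.1 h4, zero_mul]
          · rw [h2 j (le_antisymm (hx0 j) (not_lt.1 hj)), sub_self, mul_zero]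
        rw [Finset.sum_eq_zero fun j _ => h3 j, zero_div]
        unfold Phi
        rw [if_pos (by simp), mul_zero]
      rw [Finset.sum_eq_zero h1, h]
      simp
    · have hpos : 0 < en a x0 i := lt_of_le_of_ne (hen0 i) (Ne.symm h)
      have h1 : ∀ z ∈ good.image zf, w z * Phi (lam0 t)
          ((∑ j, a i j * ((((rep z) j : ℤ) : ℝ) - x0 j)) / Real.sqrt t)
          = (w z * z i) * (en a x0 i / t) := by
        intro z hz
        have h2 := congrFun (hrep2 z hz) i
        simp only [zf, if_neg h, S] at h2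
        rw [← h2]
        field_simp
      rw [Finset.sum_congr rfl h1, ← Finset.sum_mul]
      exact mul_le_mul_of_nonneg_right (hw2 i) (by positivity)

theorem Phi_ge {lam s l : ℝ} (hlam : 0 ≤ lam) (hl : 2 * 10 ^ 12 ≤ l) (hs : l < |s|) :
    exp (cc * max (l ^ 4) (lam * l ^ 2)) ≤ Phi lam s := by
  unfold Phi
  rw [if_neg (by linarith)]
  apply exp_le_exp.2
  have hl0 : 0 ≤ l := by linarith
  have h4 : l ^ 4 ≤ s ^ 4 := by
    have : s ^ 4 = |s| ^ 4 := by
      rw [show (4 : ℕ) = 2 * 2 by norm_num, pow_mul, pow_mul, sq_abs]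
    rw [this]
    exact pow_le_pow_left₀ hl0 hs.le 4
  have h2 : l ^ 2 ≤ s ^ 2 := by
    rw [← sq_abs s]
    exact pow_le_pow_left₀ hl0 hs.le 2
  have hc : 0 ≤ cc := by unfold cc; positivity
  apply mul_le_mul_of_nonneg_left _ hc
  exact max_le_max h4 (mul_le_mul_of_nonneg_left h2 hlam)

/-- Tails. -/
theorem tails (m n : ℕ) (a : Fin m → Fin n → ℝ) (t : ℝ) (ht : 1 ≤ t)
    (a1 : ∀ i j, |a i j| ≤ 1)
    (hcol : ∀ j, ∑ i, a i j ^ 2 ≤ t) (x0 : Fin n → ℝ) (hx0 : ∀ j, |x0 j| ≤ 1) :
    ∃ P : (Fin n → ℤˣ) → ℝ, (∀ e, 0 ≤ P e) ∧ ∑ e, P e = 1 ∧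
      (∀ e, P e ≠ 0 → ∀ j, |x0 j| = 1 → ((e j : ℤ) : ℝ) = x0 j) ∧
      ∀ i (l : ℝ), 2 * 10 ^ 12 ≤ l →
        ∑ e, (if l < |(∑ j, a i j * (((e j : ℤ) : ℝ) - x0 j)) / Real.sqrt t| then P e else 0)
        ≤ 10 * (en a x0 i / t) * exp (-(cc * max (l ^ 4) (lam0 t * l ^ 2))) := by
  classical
  obtain ⟨P, hP0, hP1, hP2, hP3⟩ := dist m n a t ht a1 hcol x0 hx0
  refine ⟨P, hP0, hP1, hP2, fun i l hl => ?_⟩
  have hlam : 0 ≤ lam0 t := by linarith [lam0_ge t]
  set E : ℝ := exp (cc * max (l ^ 4) (lam0 t * l ^ 2)) with hE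
  have hEpos : 0 < E := exp_pos _
  have h1 : E * ∑ e, (if l < |(∑ j, a i j * (((e j : ℤ) : ℝ) - x0 j)) / Real.sqrt t| then P e
      else 0) ≤ 10 * (en a x0 i / t) := by
    refine le_trans ?_ (hP3 i)
    rw [Finset.mul_sum]
    refine Finset.sum_le_sum fun e _ => ?_
    split_ifs with h
    · rw [mul_comm]
      exact mul_le_mul_of_nonneg_left (Phi_ge hlam hl h) (hP0 e)
    · rw [mul_zero]
      exact mul_nonneg (hP0 e) (Phi_nonneg _ _)
  rw [exp_neg, ← div_eq_mul_inv, le_div_iff₀ hEpos]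
  linarith

/-- Average of the exponentials, for any number of vectors. -/
theorem average (m n : ℕ) (a : Fin m → Fin n → ℝ)
    (hcol : ∀ j, ∑ i, a i j ^ 2 ≤ 1) (x0 : Fin n → ℝ) (hx0 : ∀ j, |x0 j| ≤ 1) :
    ∃ e : Fin n → ℤˣ, ∑ i, exp (cc * (∑ j, a i j * (((e j : ℤ) : ℝ) - x0 j)) ^ 4) ≤ 12 * m := by
  classical
  have a1 : ∀ i j, |a i j| ≤ 1 := by
    intro i j
    rw [← sq_le_one_iff_abs_le_one]
    exact (Finset.single_le_sum (f := fun i => a i j ^ 2) (fun i _ => sq_nonneg _)
      (Finset.mem_univ i)).trans (hcol j)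
  obtain ⟨y, hy1, hy2, hy3⟩ := reduce a (H167FK.Sys.alive x0).card x0 hx0 le_rfl
  obtain ⟨x, hx1, hx2, hx3⟩ := potential' a 1 le_rfl a1 hcol y hy1.1 (fun _ => 1)
    (fun _ => zero_le_one)
  have hsgn : ∀ j, ∃ u : ℤˣ, ((u : ℤ) : ℝ) = x j := by
    intro j
    rcases eq_or_eq_neg_of_abs_eq (hx1 j) with h | h
    · exact ⟨1, by rw [h]; simp⟩
    · exact ⟨-1, by rw [h]; simp⟩
  choose e he using hsgn
  have hs : ∀ i, ∑ j, a i j * (((e j : ℤ) : ℝ) - x0 j) = ∑ j, a i j * (x j - y j) := by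
    intro i
    have h1 := hy2 i
    have h2 : ∑ j, a i j * (((e j : ℤ) : ℝ) - x0 j)
        = ∑ j, a i j * (x j - y j) + ∑ j, a i j * (y j - x0 j) := by
      rw [← Finset.sum_add_distrib]
      refine Finset.sum_congr rfl fun j _ => ?_
      rw [he]; ring
    rw [h2, h1, add_zero]
  have hen : ∑ i, en a y i ≤ m := by
    unfold en
    rw [Finset.sum_comm]
    have h1 : ∀ j, ∑ i, (if |y j| < 1 then a i j ^ 2 else 0) ≤ if |y j| < 1 then 1 else 0 := by
      intro j
      by_cases h : |y j| < 1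
      · simp only [if_pos h]; exact hcol j
      · simp only [if_neg h]; simp
    refine (Finset.sum_le_sum fun j _ => h1 j).trans ?_
    rw [Finset.sum_boole]
    have h2 : ((Finset.univ.filter (fun j => |y j| < 1)).card : ℝ) ≤ (m : ℝ) := by
      have h3 : Finset.univ.filter (fun j => |y j| < 1) = H167FK.Sys.alive y := by
        ext j
        rw [mem_alive]
        simp
      rw [h3]
      have h4 : Fintype.card (Fin m) = m := Fintype.card_fin m
      rw [h4] at hy3
      exact_mod_cast hy3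
    exact h2
  refine ⟨e, ?_⟩
  have h1 : ∀ i, exp (cc * (∑ j, a i j * (((e j : ℤ) : ℝ) - x0 j)) ^ 4)
      ≤ Phi (lam0 1) (∑ j, a i j * (x j - y j)) + 2 := by
    intro i
    rw [hs]
    set s : ℝ := ∑ j, a i j * (x j - y j) with hsdef
    by_cases h : |s| ≤ 2 * 10 ^ 12
    · have h2 : cc * s ^ 4 ≤ 1 / 60 := by
        have h3 : s ^ 4 ≤ (2 * 10 ^ 12) ^ 4 := by
          have : s ^ 4 = |s| ^ 4 := by
            rw [show (4 : ℕ) = 2 * 2 by norm_num, pow_mul, pow_mul, sq_abs]
          rw [this]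
          exact pow_le_pow_left₀ (abs_nonneg _) h 4
        have hc : 0 ≤ cc := by unfold cc; positivity
        calc cc * s ^ 4 ≤ cc * (2 * 10 ^ 12) ^ 4 := mul_le_mul_of_nonneg_left h3 hc
          _ = 1 / 60 := by unfold cc; norm_num
      have h4 : exp (cc * s ^ 4) ≤ 2 := by
        refine (exp_le_exp.2 h2).trans ?_
        have h5 : exp (1 / 60 : ℝ) ≤ exp (Real.log 2) := by
          apply exp_le_exp.2
          have := Real.log_two_gt_d9
          linarith
        rwa [exp_log (by norm_num : (0 : ℝ) < 2)] at h5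
      have := Phi_nonneg (lam0 1) s
      linarith
    · push Not at h
      have h2 : exp (cc * s ^ 4) ≤ Phi (lam0 1) s := by
        unfold Phi
        rw [if_neg (not_le.2 h)]
        apply exp_le_exp.2
        have hc : 0 ≤ cc := by unfold cc; positivity
        exact mul_le_mul_of_nonneg_left (le_max_left _ _) hc
      linarith
  refine (Finset.sum_le_sum fun i _ => h1 i).trans ?_
  rw [Finset.sum_add_distrib]
  simp only [Real.sqrt_one, div_one, one_mul] at hx3
  simp only [Finset.sum_const, Finset.card_univ, Fintype.card_fin, nsmul_eq_mul]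
  linarith

end Pool.Agent.K1H87.KT
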