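import Mathlib

/-!
# Numerical lemmas
-/

set_option autoImplicit false

namespace Pool.Agent.K1H87.KT

open Finset Real

/-- `(1 + log t)^(3/2) ≤ 6 √t` -/
theorem log_pow_le (t : ℝ) (ht : 1 ≤ t) :
    (1 + Real.log t) ^ (3 / 2 : ℝ) ≤ 6 * Real.sqrt t := by
  have ht0 : 0 < t := by linarith
  set c : ℝ := t ^ (1 / 3 : ℝ) with hc
  have hc0 : 0 < c := Real.rpow_pos_of_pos ht0 _
  have hl : Real.log t = 3 * Real.log c := by
    rw [hc, Real.log_rpow ht0]; ring
  have h1 : 1 + Real.log t ≤ 3 * c := by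
    have := Real.log_le_sub_one_of_pos hc0
    rw [hl]; linarith
  have hlt : 0 ≤ Real.log t := Real.log_nonneg ht
  calc (1 + Real.log t) ^ (3 / 2 : ℝ) ≤ (3 * c) ^ (3 / 2 : ℝ) :=
        Real.rpow_le_rpow (by linarith) h1 (by norm_num)
    _ = 3 ^ (3 / 2 : ℝ) * Real.sqrt t := by
        rw [Real.mul_rpow (by norm_num) hc0.le, hc, ← Real.rpow_mul ht0.le,
          Real.sqrt_eq_rpow]
        norm_num
    _ ≤ 6 * Real.sqrt t := by
        gcongr
        have h5 : (3 : ℝ) ^ (3 / 2 : ℝ) = 3 * Real.sqrt 3 := by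
          rw [show (3 / 2 : ℝ) = 1 + 1 / 2 by norm_num, Real.rpow_add (by norm_num),
            Real.rpow_one, ← Real.sqrt_eq_rpow]
        have h6 : Real.sqrt 3 ≤ 2 := by
          rw [Real.sqrt_le_left (by norm_num)]
          norm_num
        linarith

/-- The parameter of the Gaussian part of the tails. -/
noncomputable def lam0 (t : ℝ) : ℝ := max 1 (t / (1 + Real.log t) ^ 3)

theorem lam0_ge (t : ℝ) : 1 ≤ lam0 t := le_max_left _ _

theorem lam0_sqrt (t : ℝ) (ht : 1 ≤ t) :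
    Real.sqrt (lam0 t) * (1 + Real.log t) ^ (3 / 2 : ℝ) ≤ 6 * Real.sqrt t := by
  have hlt : 0 ≤ Real.log t := Real.log_nonneg ht
  have h0 : 0 < 1 + Real.log t := by linarith
  unfold lam0
  rcases le_total 1 (t / (1 + Real.log t) ^ 3) with h | h
  · rw [max_eq_right h]
    have h1 : (1 + Real.log t) ^ (3 / 2 : ℝ) = Real.sqrt ((1 + Real.log t) ^ 3) := by
      rw [Real.sqrt_eq_rpow, ← Real.rpow_natCast, ← Real.rpow_mul h0.le]
      norm_num
    rw [h1, ← Real.sqrt_mul (by positivity), div_mul_cancel₀ _ (by positivity)]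
    have := Real.sqrt_nonneg t
    linarith
  · rw [max_eq_left h, Real.sqrt_one, one_mul]
    exact log_pow_le t ht

/-- fourth root of `lam0` -/
noncomputable def qq (t : ℝ) : ℝ := Real.sqrt (Real.sqrt (lam0 t))

theorem qq_ge (t : ℝ) : 1 ≤ qq t := by
  unfold qq
  rw [Real.one_le_sqrt, Real.one_le_sqrt]
  exact lam0_ge t

theorem qq_pow (t : ℝ) : qq t ^ 4 = lam0 t := by
  have h0 : 0 ≤ lam0 t := by linarith [lam0_ge t]
  have h1 : qq t ^ 2 = Real.sqrt (lam0 t) := Real.sq_sqrt (Real.sqrt_nonneg _)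
  calc qq t ^ 4 = (qq t ^ 2) ^ 2 := by ring
    _ = lam0 t := by rw [h1, Real.sq_sqrt h0]

theorem sqrt_L (t : ℝ) (l : ℕ) :
    Real.sqrt (lam0 t * 16 ^ l) = Real.sqrt (lam0 t) * 4 ^ l := by
  rw [Real.sqrt_mul (by linarith [lam0_ge t])]
  congr 1
  rw [show (16 : ℝ) ^ l = (4 ^ l) ^ 2 by rw [← pow_mul, mul_comm, pow_mul]; norm_num]
  exact Real.sqrt_sq (by positivity)

theorem sqrt_sqrt_L (t : ℝ) (l : ℕ) :
    Real.sqrt (Real.sqrt (lam0 t * 16 ^ l)) = qq t * 2 ^ l := by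
  rw [sqrt_L, Real.sqrt_mul (Real.sqrt_nonneg _)]
  unfold qq
  congr 1
  rw [show (4 : ℝ) ^ l = (2 ^ l) ^ 2 by rw [← pow_mul, mul_comm, pow_mul]; norm_num]
  exact Real.sqrt_sq (by positivity)

/-- the fractions -/
noncomputable def ep (t : ℝ) (l : ℕ) : ℝ := exp (-(lam0 t * 16 ^ l))

theorem ep_pos (t : ℝ) (l : ℕ) : 0 < ep t l := exp_pos _

theorem L_ge (t : ℝ) (l : ℕ) : 1 ≤ lam0 t * 16 ^ l := by
  have h1 := lam0_ge t
  have h2 : (1 : ℝ) ≤ 16 ^ l := one_le_pow₀ (by norm_num)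
  nlinarith

theorem ep_le (t : ℝ) (l : ℕ) : ep t l ≤ 1 / 2 := by
  unfold ep
  have h1 := L_ge t l
  calc exp (-(lam0 t * 16 ^ l)) ≤ exp (-1) := exp_le_exp.2 (by linarith)
    _ ≤ 1 / 2 := by
        rw [exp_neg, one_div]
        apply inv_anti₀ (by norm_num)
        have := Real.exp_one_gt_d9
        linarith

theorem log_ep (t : ℝ) (l : ℕ) : Real.log (1 / ep t l) = lam0 t * 16 ^ l := by
  unfold ep
  rw [one_div, ← exp_neg, neg_neg, Real.log_exp]

/-- the thresholds (fourth roots) -/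
noncomputable def be (t : ℝ) (l : ℕ) : ℝ := exp (-(lam0 t * 16 ^ l / 120))

theorem be_pos (t : ℝ) (l : ℕ) : 0 < be t l := exp_pos _

theorem be_le (t : ℝ) (l : ℕ) : be t l ≤ 1 := by
  unfold be
  have h1 := L_ge t l
  rw [Real.exp_le_one_iff]
  linarith

theorem log_be (t : ℝ) (l : ℕ) : Real.log (1 / be t l) = lam0 t * 16 ^ l / 120 := by
  unfold be
  rw [one_div, ← exp_neg, neg_neg, Real.log_exp]

theorem be_pow (t : ℝ) (l : ℕ) : be t l ^ 4 = exp (-(lam0 t * 16 ^ l / 30)) := by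
  unfold be
  rw [← exp_nat_mul]
  congr 1
  push_cast
  ring

/-- error of the good rows -/
theorem good_err (t : ℝ) (l : ℕ) :
    7800 * (qq t * 2 ^ l) * (be t l * (6 + Real.log (1 / be t l))) ≤ 6 * 10 ^ 11 * (1 / 2) ^ l := by
  rw [log_be]
  set y : ℝ := lam0 t * 16 ^ l with hy
  have hy1 : 1 ≤ y := L_ge t l
  have hy0 : 0 < y := by linarith
  have hqy : qq t * 2 ^ l ≤ y := by
    have h1 := qq_ge t
    have h2 : qq t ≤ lam0 t := by
      rw [← qq_pow]
      calc qq t = qq t ^ 1 := (pow_one _).symm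
        _ ≤ qq t ^ 4 := pow_le_pow_right₀ h1 (by norm_num)
    have h3 : (2 : ℝ) ^ l ≤ 16 ^ l := pow_le_pow_left₀ (by norm_num) (by norm_num) l
    exact mul_le_mul h2 h3 (by positivity) (by linarith [lam0_ge t])
  have hexp : be t l ≤ 10368000 / y ^ 3 := by
    have h1 : (y / 120) ^ 3 / 6 ≤ exp (y / 120) := by
      have := Real.pow_div_factorial_le_exp (y / 120) (by positivity) 3
      norm_num [Nat.factorial] at this
      exact this
    have h2 : be t l = (exp (y / 120))⁻¹ := by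
      unfold be
      rw [← hy, exp_neg]
    rw [h2, inv_le_comm₀ (exp_pos _) (by positivity)]
    refine le_trans (le_of_eq ?_) h1
    field_simp
    norm_num
  have h16 : (2 : ℝ) ^ l ≤ y := by
    have h3 : (2 : ℝ) ^ l ≤ 16 ^ l := pow_le_pow_left₀ (by norm_num) (by norm_num) l
    have h1 := lam0_ge t
    have h4 : (0 : ℝ) < 16 ^ l := by positivity
    rw [hy]
    nlinarith
  have hb := be_pos t l
  have hq0 : 0 ≤ qq t * 2 ^ l := by
    have := qq_ge t
    positivity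
  calc 7800 * (qq t * 2 ^ l) * (be t l * (6 + y / 120))
      ≤ 7800 * y * (10368000 / y ^ 3 * (7 * y)) := by
        apply mul_le_mul _ _ (by positivity) (by positivity)
        · linarith
        · apply mul_le_mul hexp (by linarith) (by positivity) (by positivity)
    _ = 566092800000 / y := by
        field_simp
        norm_num
    _ ≤ 566092800000 / 2 ^ l := by
        apply div_le_div_of_nonneg_left (by norm_num) (by positivity) h16
    _ = 566092800000 * (1 / 2) ^ l := by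
        rw [one_div, inv_pow, div_eq_mul_inv]
    _ ≤ 6 * 10 ^ 11 * (1 / 2) ^ l := by
        apply mul_le_mul_of_nonneg_right (by norm_num) (by positivity)

theorem sum_half (m : ℕ) : ∑ l ∈ range m, (1 / 2 : ℝ) ^ l ≤ 2 := by
  have h : ∑ l ∈ range m, (1 / 2 : ℝ) ^ l = 2 - 2 * (1 / 2) ^ m := by
    induction m with
    | zero => simp
    | succ m ih => rw [Finset.sum_range_succ, ih, pow_succ]; ring
  rw [h]
  have : (0 : ℝ) ≤ (1 / 2) ^ m := by positivity
  linarith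

theorem sum_two (m : ℕ) : ∑ l ∈ range (m + 1), (2 : ℝ) ^ l ≤ 2 * 2 ^ m := by
  have h : ∑ l ∈ range (m + 1), (2 : ℝ) ^ l = 2 * 2 ^ m - 1 := by
    induction m with
    | zero => norm_num
    | succ m ih => rw [Finset.sum_range_succ, ih, pow_succ]; ring
  rw [h]; linarith

theorem sum_four (m : ℕ) : ∑ l ∈ range (m + 1), (4 : ℝ) ^ l ≤ 2 * 4 ^ m := by
  have h : ∑ l ∈ range (m + 1), (4 : ℝ) ^ l = 4 / 3 * 4 ^ m - 1 / 3 := by
    induction m with
    | zero => norm_num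
    | succ m ih => rw [Finset.sum_range_succ, ih, pow_succ]; ring
  rw [h]
  have : (0 : ℝ) < 4 ^ m := by positivity
  linarith

theorem sum_56 (m : ℕ) : ∑ l ∈ range m, (5 / 6 : ℝ) ^ (l + 1) ≤ 5 := by
  have h : ∑ l ∈ range m, (5 / 6 : ℝ) ^ (l + 1) = 5 - 5 * (5 / 6) ^ m := by
    induction m with
    | zero => simp
    | succ m ih => rw [Finset.sum_range_succ, ih, pow_succ]; ring
  rw [h]
  have : (0 : ℝ) ≤ (5 / 6) ^ m := by positivity
  linarith

/-- the terms of the potential -/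
theorem pot_term (t : ℝ) (l : ℕ) :
    exp (lam0 t * 16 ^ (l + 1) / 60) *
      (exp (lam0 t * 16 ^ (l + 1) / 30) * exp (-(lam0 t * (16 ^ (l + 1) - 1) / 15)))
      ≤ (5 / 6) ^ (l + 1) := by
  rw [← exp_add, ← exp_add]
  have h1 := lam0_ge t
  have h2 : (16 : ℝ) * (l + 1) ≤ 16 ^ (l + 1) := by
    induction l with
    | zero => norm_num
    | succ l ih =>
      push_cast at ih ⊢
      rw [pow_succ]
      have : (0 : ℝ) ≤ l := Nat.cast_nonneg l
      linarith
  have h3 : lam0 t * 16 ^ (l + 1) / 60 + (lam0 t * 16 ^ (l + 1) / 30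
      + -(lam0 t * (16 ^ (l + 1) - 1) / 15)) = -(lam0 t * (16 ^ (l + 1) - 4) / 60) := by ring
  rw [h3]
  have h4 : ((l : ℝ) + 1) / 5 ≤ lam0 t * (16 ^ (l + 1) - 4) / 60 := by
    have h5 : (0 : ℝ) ≤ l := Nat.cast_nonneg l
    have h6 : 12 * ((l : ℝ) + 1) ≤ 16 ^ (l + 1) - 4 := by linarith
    have h7 : 0 ≤ (16 : ℝ) ^ (l + 1) - 4 := by linarith
    nlinarith
  have h8 : exp (-(1 / 5 : ℝ)) ≤ 5 / 6 := by
    rw [exp_neg, inv_le_comm₀ (exp_pos _) (by norm_num)]
    have := Real.add_one_le_exp (1 / 5 : ℝ)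
    linarith
  calc exp (-(lam0 t * (16 ^ (l + 1) - 4) / 60)) ≤ exp (-(((l : ℝ) + 1) / 5)) :=
        exp_le_exp.2 (by linarith)
    _ = exp (-(1 / 5 : ℝ)) ^ (l + 1) := by
        rw [← exp_nat_mul]
        congr 1
        push_cast
        ring
    _ ≤ (5 / 6) ^ (l + 1) := pow_le_pow_left₀ (exp_pos _).le h8 _

end Pool.Agent.K1H87.KT
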