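import Pool.Agent.K1H87.KT.Stage
import Pool.Agent.K1H87.KT.Num

/-!
# The iteration of the stages
-/

set_option autoImplicit false

namespace Pool.Agent.K1H87.KT

open Finset Real

variable {I : Type*} [Fintype I] {n : ℕ}

/-- energy of a row in the alive columns -/
noncomputable def en (a : I → Fin n → ℝ) (y : Fin n → ℝ) (i : I) : ℝ :=
  ∑ j, if |y j| < 1 then a i j ^ 2 else 0

/-- total weight of the alive columns -/
noncomputable def wt (p : Fin n → ℝ) (y : Fin n → ℝ) : ℝ := ∑ j, if |y j| < 1 then p j else 0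

/-- a row is bad in stage `l` -/
def Bad (a : I → Fin n → ℝ) (t : ℝ) (l : ℕ) (y : Fin n → ℝ) (i : I) : Prop :=
  t * be t l ^ 4 < en a y i

/-- error of the bad rows -/
noncomputable def Be (t : ℝ) (l : ℕ) : ℝ := min (6 * 10 ^ 6 * 4 ^ l) (46800 * (qq t * 2 ^ l))

/-- error of the good rows -/
noncomputable def De (l : ℕ) : ℝ := 6 * 10 ^ 11 * (1 / 2) ^ l

open Classical in
/-- error of a row -/
noncomputable def er (a : I → Fin n → ℝ) (t : ℝ) (l : ℕ) (y : Fin n → ℝ) (i : I) : ℝ :=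
  if Bad a t l y i then Be t l else De l

theorem stage_l (a : I → Fin n → ℝ) (t : ℝ) (ht : 1 ≤ t) (a1 : ∀ i j, |a i j| ≤ 1)
    (hcol : ∀ j, ∑ i, a i j ^ 2 ≤ t) (p : Fin n → ℝ) (hp0 : ∀ j, 0 ≤ p j) (l : ℕ)
    (y : Fin n → ℝ) (hy : ∀ j, |y j| ≤ 1) :
    ∃ z : Fin n → ℝ, (∀ j, |z j| ≤ 1) ∧
      (∀ i, |∑ j, a i j * (z j - y j)| ≤ Real.sqrt t * er a t l y i) ∧
      wt p z ≤ exp (-(lam0 t * 16 ^ l)) * wt p y := by
  classical
  obtain ⟨z, hz1, -, hz2, hz3, hz4⟩ := stage a t ht a1 hcol y hy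
    (fun i => if Bad a t l y i then 1 else be t l)
    (fun i => by
      split_ifs
      · exact one_pos
      · exact be_pos t l)
    (fun i => by
      split_ifs
      · exact le_rfl
      · exact be_le t l)
    (fun i => by
      by_cases h : Bad a t l y i
      · left; rw [if_pos h]
      · right
        rw [if_neg h]
        exact not_lt.1 h)
    (ep t l) (ep_pos t l) (ep_le t l) p hp0
  have hst : 0 ≤ Real.sqrt t := Real.sqrt_nonneg t
  refine ⟨z, hz1, fun i => ?_, hz4⟩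
  have h2 := hz2 i
  have h3 := hz3 i
  rw [log_ep, sqrt_sqrt_L] at h3
  unfold er
  by_cases h : Bad a t l y i
  · rw [if_pos h] at h3 ⊢
    unfold Be
    rw [mul_min_of_nonneg _ _ hst]
    refine le_min ?_ ?_
    · refine h2.trans ?_
      unfold H167KL.fin
      rw [log_ep, sqrt_L]
      have h4 := lam0_sqrt t ht
      have h5 : (1 : ℝ) ≤ 4 ^ l := one_le_pow₀ (by norm_num)
      have h6 : 940000 * (Real.sqrt (lam0 t) * 4 ^ l) * (1 + Real.log t) ^ (3 / 2 : ℝ)
          ≤ 940000 * 4 ^ l * (6 * Real.sqrt t) := by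
        calc _ = 940000 * 4 ^ l * (Real.sqrt (lam0 t) * (1 + Real.log t) ^ (3 / 2 : ℝ)) := by ring
          _ ≤ _ := mul_le_mul_of_nonneg_left h4 (by positivity)
      nlinarith [mul_le_mul_of_nonneg_left h5 hst]
    · refine h3.trans (le_of_eq ?_)
      rw [one_div, inv_one, Real.log_one]
      ring
  · rw [if_neg h] at h3 ⊢
    refine h3.trans ?_
    have h4 := good_err t l
    unfold De
    calc 7800 * (qq t * 2 ^ l) * Real.sqrt t * (be t l * (6 + Real.log (1 / be t l)))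
        = Real.sqrt t * (7800 * (qq t * 2 ^ l) * (be t l * (6 + Real.log (1 / be t l)))) := by ring
      _ ≤ _ := mul_le_mul_of_nonneg_left h4 hst

/-- the sequence of the stages -/
theorem exists_seq (a : I → Fin n → ℝ) (t : ℝ) (ht : 1 ≤ t) (a1 : ∀ i j, |a i j| ≤ 1)
    (hcol : ∀ j, ∑ i, a i j ^ 2 ≤ t) (p : Fin n → ℝ) (hp0 : ∀ j, 0 ≤ p j)
    (x0 : Fin n → ℝ) (hx0 : ∀ j, |x0 j| ≤ 1) :
    ∃ X : ℕ → Fin n → ℝ, X 0 = x0 ∧ (∀ l j, |X l j| ≤ 1) ∧
      (∀ l i, |∑ j, a i j * (X (l + 1) j - X l j)| ≤ Real.sqrt t * er a t l (X l) i) ∧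
      ∀ l, wt p (X (l + 1)) ≤ exp (-(lam0 t * 16 ^ l)) * wt p (X l) := by
  classical
  have h : ∀ (l : ℕ) (y : {y : Fin n → ℝ // ∀ j, |y j| ≤ 1}),
      ∃ z : {y : Fin n → ℝ // ∀ j, |y j| ≤ 1},
      (∀ i, |∑ j, a i j * (z.1 j - y.1 j)| ≤ Real.sqrt t * er a t l y.1 i) ∧
      wt p z.1 ≤ exp (-(lam0 t * 16 ^ l)) * wt p y.1 := by
    intro l y
    obtain ⟨z, h1, h2, h3⟩ := stage_l a t ht a1 hcol p hp0 l y.1 y.2
    exact ⟨⟨z, h1⟩, h2, h3⟩
  choose G hG1 hG2 using h
  let X : ℕ → {y : Fin n → ℝ // ∀ j, |y j| ≤ 1} := fun l => Nat.rec ⟨x0, hx0⟩ (fun l y => G l y) l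
  exact ⟨fun l => (X l).1, rfl, fun l => (X l).2, fun l i => hG1 l (X l) i, fun l => hG2 l (X l)⟩

theorem wt_nonneg (p : Fin n → ℝ) (hp0 : ∀ j, 0 ≤ p j) (y : Fin n → ℝ) : 0 ≤ wt p y := by
  unfold wt
  refine Finset.sum_nonneg fun j _ => ?_
  split_ifs
  · exact hp0 j
  · exact le_rfl

theorem wt_bound (t : ℝ) (p : Fin n → ℝ) (X : ℕ → Fin n → ℝ)
    (hw : ∀ l, wt p (X (l + 1)) ≤ exp (-(lam0 t * 16 ^ l)) * wt p (X l)) (l : ℕ) :
    wt p (X l) ≤ exp (-(lam0 t * (16 ^ l - 1) / 15)) * wt p (X 0) := by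
  induction l with
  | zero => simp
  | succ l ih =>
    refine (hw l).trans ?_
    calc exp (-(lam0 t * 16 ^ l)) * wt p (X l)
        ≤ exp (-(lam0 t * 16 ^ l)) * (exp (-(lam0 t * (16 ^ l - 1) / 15)) * wt p (X 0)) :=
          mul_le_mul_of_nonneg_left ih (exp_pos _).le
      _ = exp (-(lam0 t * (16 ^ (l + 1) - 1) / 15)) * wt p (X 0) := by
          rw [← mul_assoc, ← exp_add]
          congr 2
          rw [pow_succ]
          ring

theorem exists_end (t : ℝ) (p : Fin n → ℝ) (η : ℝ) (hη : 0 < η) (hp : ∀ j, η ≤ p j)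
    (X : ℕ → Fin n → ℝ) (hX : ∀ l j, |X l j| ≤ 1)
    (hw : ∀ l, wt p (X (l + 1)) ≤ exp (-(lam0 t * 16 ^ l)) * wt p (X l)) :
    ∃ m, ∀ j, |X m j| = 1 := by
  have hp0 : ∀ j, 0 ≤ p j := fun j => hη.le.trans (hp j)
  obtain ⟨m, hm⟩ := exists_nat_gt (wt p (X 0) / η)
  refine ⟨m, fun j => ?_⟩
  by_contra hcon
  have hlt : |X m j| < 1 := lt_of_le_of_ne (hX m j) hcon
  have h1 : η ≤ wt p (X m) := by
    refine (hp j).trans ?_
    unfold wt
    have h2 := Finset.single_le_sum (f := fun j => if |X m j| < 1 then p j else 0)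
      (fun j _ => by
        show 0 ≤ if |X m j| < 1 then p j else 0
        split_ifs
        · exact hp0 j
        · exact le_rfl) (Finset.mem_univ j)
    simp only [if_pos hlt] at h2
    exact h2
  have h2 := wt_bound t p X hw m
  have h3 : (m : ℝ) ≤ lam0 t * (16 ^ m - 1) / 15 := by
    have h4 : (15 : ℝ) * m + 1 ≤ 16 ^ m := by
      have := one_add_mul_le_pow (by norm_num : (-2 : ℝ) ≤ 15) m
      norm_num at this
      linarith
    have h5 := lam0_ge t
    have h6 : (0 : ℝ) ≤ m := Nat.cast_nonneg m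
    nlinarith
  have h4 : exp (-(lam0 t * (16 ^ m - 1) / 15)) ≤ 1 / (m + 1) := by
    rw [exp_neg, ← one_div]
    apply one_div_le_one_div_of_le (by positivity)
    have := Real.add_one_le_exp (lam0 t * (16 ^ m - 1) / 15)
    linarith
  have h5 : 0 ≤ wt p (X 0) := wt_nonneg p hp0 _
  have h6 : η ≤ 1 / (m + 1) * wt p (X 0) :=
    h1.trans (h2.trans (mul_le_mul_of_nonneg_right h4 h5))
  rw [div_lt_iff₀ hη] at hm
  have h7 : η * (m + 1) ≤ wt p (X 0) := by
    have h8 : (0 : ℝ) < m + 1 := by positivity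
    calc η * (m + 1) ≤ (1 / (m + 1) * wt p (X 0)) * (m + 1) :=
          mul_le_mul_of_nonneg_right h6 h8.le
      _ = wt p (X 0) := by field_simp
  nlinarith

theorem row_bound (a : I → Fin n → ℝ) (t : ℝ) (X : ℕ → Fin n → ℝ)
    (hr : ∀ l i, |∑ j, a i j * (X (l + 1) j - X l j)| ≤ Real.sqrt t * er a t l (X l) i) (i : I)
    (m : ℕ) :
    |∑ j, a i j * (X m j - X 0 j)| ≤ Real.sqrt t * ∑ l ∈ range m, er a t l (X l) i := by
  induction m with
  | zero => simp
  | succ m ih =>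
    have h1 : ∑ j, a i j * (X (m + 1) j - X 0 j)
        = ∑ j, a i j * (X m j - X 0 j) + ∑ j, a i j * (X (m + 1) j - X m j) := by
      rw [← Finset.sum_add_distrib]
      exact Finset.sum_congr rfl fun j _ => by ring
    rw [h1, Finset.sum_range_succ, mul_add]
    exact (abs_add_le _ _).trans (add_le_add ih (hr m i))

theorem De_nonneg (l : ℕ) : 0 ≤ De l := by unfold De; positivity

theorem Be_nonneg (t : ℝ) (l : ℕ) : 0 ≤ Be t l := by
  have := qq_ge t
  unfold Be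
  exact le_min (by positivity) (by positivity)

/-- total error of a row whose last bad stage is at most `J` -/
theorem err_bound (a : I → Fin n → ℝ) (t : ℝ) (X : ℕ → Fin n → ℝ) (i : I) (m J : ℕ)
    (hJ : ∀ l, J < l → l < m → ¬ Bad a t l (X l) i) :
    ∑ l ∈ range m, er a t l (X l) i ≤ 2 * 10 ^ 12 * min (4 ^ J) (qq t * 2 ^ J) := by
  classical
  have hq := qq_ge t
  have h1 : ∀ l ∈ range m, er a t l (X l) i ≤ (if l ≤ J then Be t l else 0) + De l := by
    intro l hl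
    rw [Finset.mem_range] at hl
    unfold er
    have hD := De_nonneg l
    have hB := Be_nonneg t l
    by_cases h : Bad a t l (X l) i
    · rw [if_pos h, if_pos (by
        by_contra hcon
        exact hJ l (not_le.1 hcon) hl h)]
      linarith
    · rw [if_neg h]
      split_ifs <;> linarith
  have h2 : ∑ l ∈ range m, De l ≤ 12 * 10 ^ 11 := by
    unfold De
    rw [← Finset.mul_sum]
    have := sum_half m
    linarith
  have h3 : ∑ l ∈ range m, (if l ≤ J then Be t l else 0) ≤ ∑ l ∈ range (J + 1), Be t l := by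
    rw [← Finset.sum_filter]
    refine Finset.sum_le_sum_of_subset_of_nonneg (fun l hl => ?_) fun l _ _ => Be_nonneg t l
    rw [Finset.mem_filter] at hl
    rw [Finset.mem_range]
    omega
  have h4 : ∑ l ∈ range (J + 1), Be t l ≤ 12 * 10 ^ 6 * 4 ^ J := by
    calc ∑ l ∈ range (J + 1), Be t l ≤ ∑ l ∈ range (J + 1), 6 * 10 ^ 6 * (4 : ℝ) ^ l :=
          Finset.sum_le_sum fun l _ => min_le_left _ _
      _ = 6 * 10 ^ 6 * ∑ l ∈ range (J + 1), (4 : ℝ) ^ l := by rw [Finset.mul_sum]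
      _ ≤ _ := by
          have := sum_four J
          linarith
  have h5 : ∑ l ∈ range (J + 1), Be t l ≤ 93600 * (qq t * 2 ^ J) := by
    calc ∑ l ∈ range (J + 1), Be t l ≤ ∑ l ∈ range (J + 1), 46800 * (qq t * (2 : ℝ) ^ l) :=
          Finset.sum_le_sum fun l _ => min_le_right _ _
      _ = 46800 * (qq t * ∑ l ∈ range (J + 1), (2 : ℝ) ^ l) := by
          rw [Finset.mul_sum, Finset.mul_sum]
      _ ≤ 46800 * (qq t * (2 * 2 ^ J)) := by
          have := sum_two J
          gcongr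
      _ = _ := by ring
  have h6 : ∑ l ∈ range m, er a t l (X l) i
      ≤ ∑ l ∈ range (J + 1), Be t l + 12 * 10 ^ 11 := by
    refine (Finset.sum_le_sum h1).trans ?_
    rw [Finset.sum_add_distrib]
    linarith
  have h7 : (1 : ℝ) ≤ 4 ^ J := one_le_pow₀ (by norm_num)
  have h8 : (1 : ℝ) ≤ qq t * 2 ^ J := by
    have : (1 : ℝ) ≤ 2 ^ J := one_le_pow₀ (by norm_num)
    nlinarith
  rw [mul_min_of_nonneg _ _ (by positivity)]
  refine le_min ?_ ?_
  · linarith
  · linarith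

/-- the weight of the bad rows -/
theorem bad_weight (a : I → Fin n → ℝ) (t : ℝ) (ht : 1 ≤ t) (w : I → ℝ) (hw0 : ∀ i, 0 ≤ w i)
    (p : Fin n → ℝ) (hp : ∀ j, ∑ i, w i * (a i j ^ 2 / t) ≤ p j) (l : ℕ) (y : Fin n → ℝ)
    [DecidablePred (Bad a t l y)] :
    ∑ i, w i * (if Bad a t l y i then 1 else 0) ≤ exp (lam0 t * 16 ^ l / 30) * wt p y := by
  have h1 : ∀ i, w i * (if Bad a t l y i then 1 else 0)
      ≤ exp (lam0 t * 16 ^ l / 30) * (w i * (en a y i / t)) := by
    intro i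
    have hE : 0 ≤ en a y i := by
      unfold en
      refine Finset.sum_nonneg fun j _ => ?_
      split_ifs
      · exact sq_nonneg _
      · exact le_rfl
    by_cases h : Bad a t l y i
    · rw [if_pos h]
      unfold Bad at h
      rw [be_pow] at h
      have h2 : exp (-(lam0 t * 16 ^ l / 30)) ≤ en a y i / t := by
        rw [le_div_iff₀ (by linarith)]
        linarith
      have h3 : 1 ≤ exp (lam0 t * 16 ^ l / 30) * (en a y i / t) := by
        calc (1 : ℝ) = exp (lam0 t * 16 ^ l / 30) * exp (-(lam0 t * 16 ^ l / 30)) := by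
              rw [← exp_add]; simp
          _ ≤ _ := mul_le_mul_of_nonneg_left h2 (exp_pos _).le
      calc w i * 1 ≤ w i * (exp (lam0 t * 16 ^ l / 30) * (en a y i / t)) :=
            mul_le_mul_of_nonneg_left h3 (hw0 i)
        _ = _ := by ring
    · rw [if_neg h, mul_zero]
      exact mul_nonneg (exp_pos _).le (mul_nonneg (hw0 i) (div_nonneg hE (by linarith)))
  refine (Finset.sum_le_sum fun i _ => h1 i).trans ?_
  rw [← Finset.mul_sum]
  refine mul_le_mul_of_nonneg_left ?_ (exp_pos _).le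
  unfold en wt
  have h2 : ∀ i, w i * ((∑ j, if |y j| < 1 then a i j ^ 2 else 0) / t)
      = ∑ j, if |y j| < 1 then w i * (a i j ^ 2 / t) else 0 := by
    intro i
    rw [Finset.sum_div, Finset.mul_sum]
    refine Finset.sum_congr rfl fun j _ => ?_
    split_ifs
    · rfl
    · simp
  simp only [h2]
  rw [Finset.sum_comm]
  refine Finset.sum_le_sum fun j _ => ?_
  by_cases hj : |y j| < 1
  · simp only [if_pos hj]
    exact hp j
  · simp [if_neg hj]

/-- the constant -/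
noncomputable def cc : ℝ := 1 / (60 * (2 * 10 ^ 12) ^ 4)

/-- the potential -/
noncomputable def Phi (lam s : ℝ) : ℝ :=
  if |s| ≤ 2 * 10 ^ 12 then 0 else exp (cc * max (s ^ 4) (lam * s ^ 2))

theorem Phi_le (t : ℝ) (s : ℝ) (J : ℕ)
    (hs : |s| ≤ 2 * 10 ^ 12 * min (4 ^ J) (qq t * 2 ^ J)) :
    Phi (lam0 t) s ≤ exp (lam0 t * 16 ^ J / 60) := by
  have hq := qq_ge t
  have hl := lam0_ge t
  unfold Phi
  split_ifs with h
  · exact (exp_pos _).le
  · apply exp_le_exp.2
    have hs1 : |s| ≤ 2 * 10 ^ 12 * 4 ^ J :=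
      hs.trans (mul_le_mul_of_nonneg_left (min_le_left _ _) (by positivity))
    have hs2 : |s| ≤ 2 * 10 ^ 12 * (qq t * 2 ^ J) :=
      hs.trans (mul_le_mul_of_nonneg_left (min_le_right _ _) (by positivity))
    have h16 : (16 : ℝ) ^ J = (2 ^ J) ^ 4 := by
      rw [← pow_mul, mul_comm, pow_mul]; norm_num
    have h16' : (16 : ℝ) ^ J = (4 ^ J) ^ 2 := by
      rw [← pow_mul, mul_comm, pow_mul]; norm_num
    have e4 : s ^ 4 ≤ (2 * 10 ^ 12) ^ 4 * (lam0 t * 16 ^ J) := by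
      have : s ^ 4 = |s| ^ 4 := by
        rw [show (4 : ℕ) = 2 * 2 by norm_num, pow_mul, pow_mul, sq_abs]
      rw [this]
      calc |s| ^ 4 ≤ (2 * 10 ^ 12 * (qq t * 2 ^ J)) ^ 4 := pow_le_pow_left₀ (abs_nonneg _) hs2 4
        _ = (2 * 10 ^ 12) ^ 4 * (qq t ^ 4 * (2 ^ J) ^ 4) := by ring
        _ = _ := by rw [qq_pow, h16]
    have e2 : lam0 t * s ^ 2 ≤ (2 * 10 ^ 12) ^ 4 * (lam0 t * 16 ^ J) := by
      have h5 : s ^ 2 ≤ (2 * 10 ^ 12 * 4 ^ J) ^ 2 := by
        rw [← sq_abs]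
        exact pow_le_pow_left₀ (abs_nonneg _) hs1 2
      calc lam0 t * s ^ 2 ≤ lam0 t * (2 * 10 ^ 12 * 4 ^ J) ^ 2 :=
            mul_le_mul_of_nonneg_left h5 (by linarith)
        _ = (2 * 10 ^ 12) ^ 2 * (lam0 t * 16 ^ J) := by rw [h16']; ring
        _ ≤ (2 * 10 ^ 12) ^ 4 * (lam0 t * 16 ^ J) := by
            apply mul_le_mul_of_nonneg_right _ (by positivity)
            norm_num
    have e5 : max (s ^ 4) (lam0 t * s ^ 2) ≤ (2 * 10 ^ 12) ^ 4 * (lam0 t * 16 ^ J) := max_le e4 e2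
    unfold cc
    calc 1 / (60 * (2 * 10 ^ 12) ^ 4) * max (s ^ 4) (lam0 t * s ^ 2)
        ≤ 1 / (60 * (2 * 10 ^ 12) ^ 4) * ((2 * 10 ^ 12) ^ 4 * (lam0 t * 16 ^ J)) :=
          mul_le_mul_of_nonneg_left e5 (by positivity)
      _ = lam0 t * 16 ^ J / 60 := by
          field_simp

theorem Phi_nonneg (lam s : ℝ) : 0 ≤ Phi lam s := by
  unfold Phi
  split_ifs
  · exact le_rfl
  · exact (exp_pos _).le

/-- the potential of a row -/
theorem Phi_row (a : I → Fin n → ℝ) (t : ℝ) (X : ℕ → Fin n → ℝ) (i : I) (m : ℕ)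
    [∀ l, DecidablePred (Bad a t l (X l))] (s : ℝ)
    (hs : |s| ≤ ∑ l ∈ range m, er a t l (X l) i) :
    Phi (lam0 t) s ≤ ∑ l ∈ range m, exp (lam0 t * 16 ^ (l + 1) / 60) *
      (if Bad a t (l + 1) (X (l + 1)) i then 1 else 0) := by
  classical
  have hnn : ∀ l ∈ range m, 0 ≤ exp (lam0 t * 16 ^ (l + 1) / 60) *
      (if Bad a t (l + 1) (X (l + 1)) i then (1 : ℝ) else 0) := by
    intro l _
    split_ifs
    · rw [mul_one]; exact (exp_pos _).le
    · rw [mul_zero]
  by_cases hex : ∃ l, 0 < l ∧ l < m ∧ Bad a t l (X l) i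
  · obtain ⟨l1, hl1⟩ := hex
    let S : Finset ℕ := (range m).filter (fun l => 0 < l ∧ Bad a t l (X l) i)
    have hS : S.Nonempty := ⟨l1, by
      simp only [S, Finset.mem_filter, Finset.mem_range]
      exact ⟨hl1.2.1, hl1.1, hl1.2.2⟩⟩
    set J := S.max' hS with hJ
    have hJS : J ∈ S := S.max'_mem hS
    simp only [S, Finset.mem_filter, Finset.mem_range] at hJS
    have hmax : ∀ l, J < l → l < m → ¬ Bad a t l (X l) i := by
      intro l h1 h2 h3
      have h4 : l ∈ S := by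
        simp only [S, Finset.mem_filter, Finset.mem_range]
        exact ⟨h2, by omega, h3⟩
      have := S.le_max' l h4
      omega
    have h1 := Phi_le t s J (hs.trans (err_bound a t X i m J hmax))
    refine h1.trans ?_
    have h2 := Finset.single_le_sum hnn (Finset.mem_range.2 (by omega : J - 1 < m))
    refine le_trans ?_ h2
    have h3 : J - 1 + 1 = J := by omega
    simp only [h3]
    rw [if_pos hJS.2.2, mul_one]
  · push Not at hex
    have h1 := err_bound a t X i m 0 (fun l h1 h2 => hex l h1 h2)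
    have h2 : |s| ≤ 2 * 10 ^ 12 := by
      refine (hs.trans h1).trans ?_
      rw [pow_zero, pow_zero, mul_one]
      have : min 1 (qq t) ≤ 1 := min_le_left _ _
      nlinarith
    unfold Phi
    rw [if_pos h2]
    exact Finset.sum_nonneg hnn

/-- **Weighted theorem with potential**, positive weights of the columns. -/
theorem potential_aux (a : I → Fin n → ℝ) (t : ℝ) (ht : 1 ≤ t) (a1 : ∀ i j, |a i j| ≤ 1)
    (hcol : ∀ j, ∑ i, a i j ^ 2 ≤ t) (x0 : Fin n → ℝ) (hx0 : ∀ j, |x0 j| ≤ 1)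
    (w : I → ℝ) (hw0 : ∀ i, 0 ≤ w i) (p : Fin n → ℝ) (η : ℝ) (hη : 0 < η) (hpη : ∀ j, η ≤ p j)
    (hp : ∀ j, ∑ i, w i * (a i j ^ 2 / t) ≤ p j) :
    ∃ x : Fin n → ℝ, (∀ j, |x j| = 1) ∧
      ∑ i, w i * Phi (lam0 t) ((∑ j, a i j * (x j - x0 j)) / Real.sqrt t) ≤ 5 * ∑ j, p j := by
  classical
  have hp0 : ∀ j, 0 ≤ p j := fun j => hη.le.trans (hpη j)
  obtain ⟨X, hX0, hX1, hX2, hX3⟩ := exists_seq a t ht a1 hcol p hp0 x0 hx0
  obtain ⟨m, hm⟩ := exists_end t p η hη hpη X hX1 hX3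
  have hst : 0 < Real.sqrt t := Real.sqrt_pos.2 (by linarith)
  refine ⟨X m, hm, ?_⟩
  have h1 : ∀ i, Phi (lam0 t) ((∑ j, a i j * (X m j - x0 j)) / Real.sqrt t)
      ≤ ∑ l ∈ range m, exp (lam0 t * 16 ^ (l + 1) / 60) *
        (if Bad a t (l + 1) (X (l + 1)) i then 1 else 0) := by
    intro i
    apply Phi_row a t X i m
    rw [abs_div, abs_of_pos hst, div_le_iff₀ hst, ← hX0, mul_comm]
    exact row_bound a t X hX2 i m
  have h2 : ∑ i, w i * Phi (lam0 t) ((∑ j, a i j * (X m j - x0 j)) / Real.sqrt t)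
      ≤ ∑ l ∈ range m, exp (lam0 t * 16 ^ (l + 1) / 60) *
        ∑ i, w i * (if Bad a t (l + 1) (X (l + 1)) i then 1 else 0) := by
    calc _ ≤ ∑ i, w i * ∑ l ∈ range m, exp (lam0 t * 16 ^ (l + 1) / 60) *
        (if Bad a t (l + 1) (X (l + 1)) i then 1 else 0) :=
          Finset.sum_le_sum fun i _ => mul_le_mul_of_nonneg_left (h1 i) (hw0 i)
      _ = _ := by
          simp only [Finset.mul_sum]
          rw [Finset.sum_comm]
          refine Finset.sum_congr rfl fun l _ => Finset.sum_congr rfl fun i _ => ?_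
          ring
  have hP : wt p (X 0) ≤ ∑ j, p j := by
    unfold wt
    refine Finset.sum_le_sum fun j _ => ?_
    split_ifs
    · exact le_rfl
    · exact hp0 j
  have hP0 : 0 ≤ ∑ j, p j := Finset.sum_nonneg fun j _ => hp0 j
  refine h2.trans ?_
  have h3 : ∀ l ∈ range m, exp (lam0 t * 16 ^ (l + 1) / 60) *
        ∑ i, w i * (if Bad a t (l + 1) (X (l + 1)) i then 1 else 0)
      ≤ (5 / 6) ^ (l + 1) * ∑ j, p j := by
    intro l _
    have h4 := bad_weight a t ht w hw0 p hp (l + 1) (X (l + 1))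
    have h5 := wt_bound t p X hX3 (l + 1)
    calc exp (lam0 t * 16 ^ (l + 1) / 60) *
        ∑ i, w i * (if Bad a t (l + 1) (X (l + 1)) i then 1 else 0)
        ≤ exp (lam0 t * 16 ^ (l + 1) / 60) * (exp (lam0 t * 16 ^ (l + 1) / 30) *
          (exp (-(lam0 t * (16 ^ (l + 1) - 1) / 15)) * ∑ j, p j)) := by
          refine mul_le_mul_of_nonneg_left (h4.trans ?_) (exp_pos _).le
          refine mul_le_mul_of_nonneg_left (h5.trans ?_) (exp_pos _).le
          exact mul_le_mul_of_nonneg_left hP (exp_pos _).le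
      _ = (exp (lam0 t * 16 ^ (l + 1) / 60) *
          (exp (lam0 t * 16 ^ (l + 1) / 30) * exp (-(lam0 t * (16 ^ (l + 1) - 1) / 15)))) *
          ∑ j, p j := by ring
      _ ≤ _ := mul_le_mul_of_nonneg_right (pot_term t l) hP0
  refine (Finset.sum_le_sum h3).trans ?_
  rw [← Finset.sum_mul]
  exact mul_le_mul_of_nonneg_right (sum_56 m) hP0

/-- **Weighted theorem with potential.** -/
theorem potential (a : I → Fin n → ℝ) (t : ℝ) (ht : 1 ≤ t) (a1 : ∀ i j, |a i j| ≤ 1)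
    (hcol : ∀ j, ∑ i, a i j ^ 2 ≤ t) (x0 : Fin n → ℝ) (hx0 : ∀ j, |x0 j| ≤ 1)
    (w : I → ℝ) (hw0 : ∀ i, 0 ≤ w i) :
    ∃ x : Fin n → ℝ, (∀ j, |x j| = 1) ∧
      ∑ i, w i * Phi (lam0 t) ((∑ j, a i j * (x j - x0 j)) / Real.sqrt t)
        ≤ 10 * ∑ i, w i * ((∑ j, a i j ^ 2) / t) := by
  classical
  have ht0 : 0 < t := by linarith
  set W : ℝ := ∑ i, w i * ((∑ j, a i j ^ 2) / t) with hW
  have hterm : ∀ i, 0 ≤ w i * ((∑ j, a i j ^ 2) / t) := fun i =>
    mul_nonneg (hw0 i) (div_nonneg (Finset.sum_nonneg fun j _ => sq_nonneg _) ht0.le)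
  have hW0 : 0 ≤ W := Finset.sum_nonneg fun i _ => hterm i
  rcases hW0.eq_or_lt with h0 | hpos
  · refine ⟨fun _ => 1, fun _ => by simp, ?_⟩
    rw [← h0, mul_zero]
    apply le_of_eq
    refine Finset.sum_eq_zero fun i _ => ?_
    have h1 : w i * ((∑ j, a i j ^ 2) / t) = 0 :=
      (Finset.sum_eq_zero_iff_of_nonneg fun i _ => hterm i).1 (hW ▸ h0.symm) i (Finset.mem_univ i)
    rcases mul_eq_zero.1 h1 with h2 | h2
    · rw [h2, zero_mul]
    · have h3 : ∑ j, a i j ^ 2 = 0 := by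
        rcases div_eq_zero_iff.1 h2 with h4 | h4
        · exact h4
        · linarith
      have h4 : ∀ j, a i j = 0 := fun j => by
        have := (Finset.sum_eq_zero_iff_of_nonneg fun j _ => sq_nonneg (a i j)).1 h3 j
          (Finset.mem_univ j)
        exact pow_eq_zero_iff two_ne_zero |>.1 this
      have h5 : ∑ j, a i j * ((1 : ℝ) - x0 j) = 0 :=
        Finset.sum_eq_zero fun j _ => by rw [h4 j, zero_mul]
      rw [h5, zero_div]
      unfold Phi
      rw [if_pos (by simp)]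
      ring
  · rcases Nat.eq_zero_or_pos n with hn | hn
    · subst hn
      refine ⟨fun _ => 1, fun _ => by simp, ?_⟩
      have : W = 0 := by
        rw [hW]
        refine Finset.sum_eq_zero fun i _ => ?_
        simp
      linarith
    · have hnR : (0 : ℝ) < n := by exact_mod_cast hn
      obtain ⟨x, hx1, hx2⟩ := potential_aux a t ht a1 hcol x0 hx0 w hw0
        (fun j => ∑ i, w i * (a i j ^ 2 / t) + W / n) (W / n) (by positivity)
        (fun j => by
          have : 0 ≤ ∑ i, w i * (a i j ^ 2 / t) := Finset.sum_nonneg fun i _ =>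
            mul_nonneg (hw0 i) (div_nonneg (sq_nonneg _) ht0.le)
          linarith)
        (fun j => by
          have : 0 ≤ W / n := by positivity
          linarith)
      refine ⟨x, hx1, hx2.trans (le_of_eq ?_)⟩
      rw [Finset.sum_add_distrib, Finset.sum_comm]
      have h1 : ∑ i, ∑ j, w i * (a i j ^ 2 / t) = W := by
        rw [hW]
        refine Finset.sum_congr rfl fun i _ => ?_
        rw [← Finset.mul_sum, ← Finset.sum_div]
      rw [h1]
      simp only [Finset.sum_const, Finset.card_univ, Fintype.card_fin, nsmul_eq_mul]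
      field_simp
      ring

end Pool.Agent.K1H87.KT
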