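import Pool.Agent.K1H87.KT.Blk
import Pool.Agent.K1H87.KT.Num
import Pool.Agent.K1H87.KT.Reduce

/-!
# Bounds that depend on the rank of the coordinate
-/

set_option autoImplicit false

namespace Pool.Agent.K1H87.KT

open Finset Real

/-- One stage in which the first `R` rows are kept. -/
theorem one_stage {d : ℕ} {J : Type} [Fintype J] (a : Fin d → J → ℝ) (t : ℝ) (ht : 1 ≤ t)
    (a1 : ∀ i j, |a i j| ≤ 1) (hcol : ∀ j, ∑ i, a i j ^ 2 ≤ t) (x0 : J → ℝ)
    (hx0 : ∀ j, |x0 j| ≤ 1) (R : ℕ) (M : ℝ) (hM : 1 ≤ M) :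
    ∃ x : J → ℝ, (∀ j, |x j| ≤ 1) ∧ (∀ j, |x0 j| = 1 → x j = x0 j) ∧
      (∀ i : Fin d, (i : ℕ) < R → ∑ j, a i j * (x j - x0 j) = 0) ∧
      (∀ i, |∑ j, a i j * (x j - x0 j)| ≤ 140058 * Real.sqrt t * Real.sqrt (Real.sqrt M) ∧
        |∑ j, a i j * (x j - x0 j)| ≤ 140058 * Real.sqrt t * (1 + Real.sqrt (M / lam0 t))) ∧
      ((H167FK.Sys.alive x).card : ℝ) ≤ 20 * R + 2 * (Fintype.card J : ℝ) * exp (-M) := by
  classical
  let Q : Blk (Fin d) J :=
    { a := a
      I0 := Finset.univ.filter (fun i : Fin d => (i : ℕ) < R)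
      I1 := Finset.univ
      t := t
      ht := ht
      M := M
      hM := hM
      a1 := a1
      col := hcol
      x0 := x0
      hx0 := hx0
      τ := fun _ => 1
      τ_pos := fun _ _ => one_pos
      τ_mass := fun _ _ => Or.inl le_rfl }
  have hQh : Q.h = Real.sqrt (960 * M) := rfl
  have hQt : Q.t = t := rfl
  have hQC : Q.C0 = 520 * Real.sqrt t + 753 * Real.sqrt (960 * M) * (1 + Real.log t) ^ (3 / 2 : ℝ) :=
    rfl
  obtain ⟨x, h1, h2, h3, h4, h5⟩ := Q.block
  have hst : 0 ≤ Real.sqrt t := Real.sqrt_nonneg t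
  have hM0 : 0 ≤ M := by linarith
  have hsM : 1 ≤ Real.sqrt M := Real.one_le_sqrt.2 hM
  have hl := lam0_ge t
  refine ⟨x, h1, h2, fun i hi => h3 i (by
    show i ∈ Finset.univ.filter (fun i : Fin d => (i : ℕ) < R)
    rw [Finset.mem_filter]
    exact ⟨Finset.mem_univ _, hi⟩), fun i => ?_, ?_⟩
  · obtain ⟨e1, e2⟩ := h4 i (Finset.mem_univ i)
    have h960 : Real.sqrt (960 * M) ≤ 31 * Real.sqrt M := by
      rw [Real.sqrt_mul (by norm_num)]
      apply mul_le_mul_of_nonneg_right _ (by linarith)
      rw [Real.sqrt_le_left (by norm_num)]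
      norm_num
    constructor
    · refine e2.trans ?_
      rw [hQh, hQt]
      have h6 : min 1 (Q.τ i) = 1 := min_self 1
      rw [h6, mul_one]
      have h7 : Real.sqrt (Real.sqrt (960 * M)) ≤ 6 * Real.sqrt (Real.sqrt M) := by
        have h8 : Real.sqrt (960 * M) ≤ (6 * Real.sqrt (Real.sqrt M)) ^ 2 := by
          rw [mul_pow, Real.sq_sqrt (by linarith)]
          linarith
        have h9 := Real.sqrt_le_sqrt h8
        rwa [Real.sqrt_sq (by positivity)] at h9
      have h8 : 0 ≤ Real.sqrt (Real.sqrt M) := Real.sqrt_nonneg _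
      calc 520 * Real.sqrt (Real.sqrt (960 * M)) * Real.sqrt t
          ≤ 520 * (6 * Real.sqrt (Real.sqrt M)) * Real.sqrt t := by gcongr
        _ = 3120 * (Real.sqrt t * Real.sqrt (Real.sqrt M)) := by ring
        _ ≤ 140058 * (Real.sqrt t * Real.sqrt (Real.sqrt M)) := by
            apply mul_le_mul_of_nonneg_right (by norm_num) (by positivity)
        _ = _ := by ring
    · refine e1.trans ?_
      rw [hQC]
      have hsl : 0 < Real.sqrt (lam0 t) := Real.sqrt_pos.2 (by linarith)
      have hlt : 0 ≤ Real.log t := Real.log_nonneg ht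
      have h6 : (1 + Real.log t) ^ (3 / 2 : ℝ) ≤ 6 * Real.sqrt t / Real.sqrt (lam0 t) := by
        rw [le_div_iff₀ hsl, mul_comm]
        exact lam0_sqrt t ht
      have h7 : 753 * Real.sqrt (960 * M) * (1 + Real.log t) ^ (3 / 2 : ℝ)
          ≤ 753 * (31 * Real.sqrt M) * (6 * Real.sqrt t / Real.sqrt (lam0 t)) := by
        have h8 : 0 ≤ (1 + Real.log t) ^ (3 / 2 : ℝ) := by positivity
        gcongr
      rw [Real.sqrt_div hM0]
      calc 520 * Real.sqrt t + 753 * Real.sqrt (960 * M) * (1 + Real.log t) ^ (3 / 2 : ℝ)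
          ≤ 140058 * Real.sqrt t + 753 * (31 * Real.sqrt M) * (6 * Real.sqrt t / Real.sqrt (lam0 t)) := by
            linarith
        _ = 140058 * Real.sqrt t * (1 + Real.sqrt M / Real.sqrt (lam0 t)) := by ring
  · refine h5.trans ?_
    have h6 : (Q.I0.card : ℝ) ≤ R := by
      have h7 : Q.I0.card ≤ R := by
        have h8 : Q.I0.map Fin.valEmbedding ⊆ Finset.range R := by
          intro k hk
          rw [Finset.mem_map] at hk
          obtain ⟨i, hi, rfl⟩ := hk
          have := (Finset.mem_filter.1 hi).2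
          simpa using this
        have h9 := Finset.card_le_card h8
        rwa [Finset.card_map, Finset.card_range] at h9
      exact_mod_cast h7
    have h7 : Q.M = M := rfl
    rw [h7]
    linarith

/-- the exponent of a row -/
noncomputable def XX (N : ℕ) (i : ℕ) : ℝ := min (9 + 2 * Real.log (1 + i)) (1 + Real.log N)

theorem XX_ge {N : ℕ} (hN : 1 ≤ N) (i : ℕ) : 1 ≤ XX N i := by
  unfold XX
  have h1 : 0 ≤ Real.log (1 + (i : ℝ)) := Real.log_nonneg (by
    have : (0 : ℝ) ≤ i := Nat.cast_nonneg i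
    linarith)
  have h2 : 0 ≤ Real.log (N : ℝ) := Real.log_nonneg (by exact_mod_cast hN)
  exact le_min (by linarith) (by linarith)

theorem sq_sqrt_sqrt (x : ℝ) (hx : 0 ≤ x) : Real.sqrt (Real.sqrt x) ^ 4 = x := by
  have h1 : Real.sqrt (Real.sqrt x) ^ 2 = Real.sqrt x := Real.sq_sqrt (Real.sqrt_nonneg _)
  calc Real.sqrt (Real.sqrt x) ^ 4 = (Real.sqrt (Real.sqrt x) ^ 2) ^ 2 := by ring
    _ = x := by rw [h1, Real.sq_sqrt hx]

theorem step1 {x : ℝ} (hx : 0 ≤ x) :
    140058 * Real.sqrt (Real.sqrt (x / 2)) + 20 * 140058 * Real.sqrt (Real.sqrt (7 / 10 * x))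
      ≤ 20 * 140058 * Real.sqrt (Real.sqrt x) := by
  have h1 : Real.sqrt (Real.sqrt (x / 2)) ≤ Real.sqrt (Real.sqrt x) :=
    Real.sqrt_le_sqrt (Real.sqrt_le_sqrt (by linarith))
  have h2 : Real.sqrt (Real.sqrt (7 / 10 * x)) ≤ 92 / 100 * Real.sqrt (Real.sqrt x) := by
    have h3 : Real.sqrt (Real.sqrt (7 / 10 * x)) ^ 4 ≤ (92 / 100 * Real.sqrt (Real.sqrt x)) ^ 4 := by
      rw [sq_sqrt_sqrt _ (by positivity), mul_pow, sq_sqrt_sqrt _ hx]
      norm_num
      linarith
    exact le_of_pow_le_pow_left₀ (by norm_num) (by positivity) h3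
  have h0 := Real.sqrt_nonneg (Real.sqrt x)
  linarith

theorem step2 {x lam : ℝ} (hl : 1 ≤ lam) (hx : lam ≤ x) :
    140058 * (1 + Real.sqrt (x / 2 / lam)) + 20 * 140058 * (1 + Real.sqrt (7 / 10 * x / lam))
      ≤ 20 * 140058 * (1 + Real.sqrt (x / lam)) := by
  have hl0 : 0 < lam := by linarith
  have hy : 1 ≤ x / lam := by rw [le_div_iff₀ hl0]; linarith
  have hy1 : 1 ≤ Real.sqrt (x / lam) := Real.one_le_sqrt.2 hy
  have h1 : Real.sqrt (x / 2 / lam) ≤ 71 / 100 * Real.sqrt (x / lam) := by
    have h3 : x / 2 / lam ≤ (71 / 100 * Real.sqrt (x / lam)) ^ 2 := by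
      rw [mul_pow, Real.sq_sqrt (by linarith)]
      have : x / 2 / lam = 1 / 2 * (x / lam) := by ring
      rw [this]
      nlinarith
    have h4 := Real.sqrt_le_sqrt h3
    rwa [Real.sqrt_sq (by positivity)] at h4
  have h2 : Real.sqrt (7 / 10 * x / lam) ≤ 84 / 100 * Real.sqrt (x / lam) := by
    have h3 : 7 / 10 * x / lam ≤ (84 / 100 * Real.sqrt (x / lam)) ^ 2 := by
      rw [mul_pow, Real.sq_sqrt (by linarith)]
      have : 7 / 10 * x / lam = 7 / 10 * (x / lam) := by ring
      rw [this]
      nlinarith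
    have h4 := Real.sqrt_le_sqrt h3
    rwa [Real.sqrt_sq (by positivity)] at h4
  linarith

/-- The numbers of the main stage. -/
theorem stage_num {N : ℕ} (hN : 6 < 1 + Real.log N) :
    ⌊2 * Real.sqrt N⌋₊ < N ∧ 1 ≤ ⌊2 * Real.sqrt N⌋₊ ∧
    1 + Real.log ⌊2 * Real.sqrt N⌋₊ ≤ 7 / 10 * (1 + Real.log N) ∧
    20 * (⌊Real.sqrt N / 40⌋₊ : ℝ) + 2 * N * exp (-((1 + Real.log N) / 2)) ≤ 2 * Real.sqrt N - 0 ∧
    ∀ i : ℕ, ⌊Real.sqrt N / 40⌋₊ ≤ i → XX N i = 1 + Real.log N := by
  have hN1 : 1 ≤ N := by
    rcases Nat.eq_zero_or_pos N with h | h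
    · rw [h] at hN
      simp at hN
    · exact h
  have hNR : (1 : ℝ) ≤ N := by exact_mod_cast hN1
  have hN5 : (100 : ℝ) ≤ N := by
    have h1 : 5 < Real.log N := by linarith
    have h2 : exp 5 < N := by
      rwa [← Real.lt_log_iff_exp_lt (by linarith)]
    have h3 : (2.7 : ℝ) ^ 5 ≤ exp 5 := by
      have h4 : exp 5 = exp 1 ^ 5 := by rw [← exp_nat_mul]; norm_num
      rw [h4]
      apply pow_le_pow_left₀ (by norm_num)
      have := Real.exp_one_gt_d9
      linarith
    have h4 : (100 : ℝ) ≤ (2.7 : ℝ) ^ 5 := by norm_num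
    linarith
  set r : ℝ := Real.sqrt N with hr
  have hr2 : r ^ 2 = N := Real.sq_sqrt (by linarith)
  have hr10 : 10 ≤ r := by
    rw [hr]
    apply Real.le_sqrt_of_sq_le
    linarith
  have hf1 : (⌊2 * r⌋₊ : ℝ) ≤ 2 * r := Nat.floor_le (by positivity)
  have hf2 : 1 ≤ ⌊2 * r⌋₊ := by
    rw [Nat.one_le_floor_iff]
    linarith
  refine ⟨?_, hf2, ?_, ?_, ?_⟩
  · have : (⌊2 * r⌋₊ : ℝ) < N := by
      rw [← hr2]; nlinarith
    exact_mod_cast this
  · have h1 : Real.log (⌊2 * r⌋₊ : ℝ) ≤ Real.log (2 * r) :=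
      Real.log_le_log (by exact_mod_cast hf2) hf1
    have h2 : Real.log (2 * r) = Real.log 2 + Real.log N / 2 := by
      rw [Real.log_mul (by norm_num) (by linarith), hr, Real.log_sqrt (by linarith)]
    have h3 := Real.log_two_lt_d9
    rw [h2] at h1
    linarith
  · have h1 : (⌊r / 40⌋₊ : ℝ) ≤ r / 40 := Nat.floor_le (by positivity)
    have h2 : exp (-((1 + Real.log N) / 2)) = exp (-(1 / 2 : ℝ)) * (1 / r) := by
      have h3 : -((1 + Real.log (N : ℝ)) / 2) = -(1 / 2 : ℝ) + -(Real.log r) := by
        rw [hr, Real.log_sqrt (by linarith)]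
        ring
      rw [h3, exp_add, exp_neg (Real.log r), exp_log (by linarith), one_div r]
    have h3 : exp (-(1 / 2 : ℝ)) ≤ 2 / 3 := by
      rw [exp_neg, inv_le_comm₀ (exp_pos _) (by norm_num)]
      have := Real.add_one_le_exp (1 / 2 : ℝ)
      linarith
    rw [h2]
    have h4 : 2 * (N : ℝ) * (exp (-(1 / 2 : ℝ)) * (1 / r)) = 2 * r * exp (-(1 / 2 : ℝ)) := by
      rw [← hr2]
      field_simp
    rw [h4]
    nlinarith
  · intro i hi
    unfold XX
    apply min_eq_right
    have h1 : r / 40 < ⌊r / 40⌋₊ + 1 := Nat.lt_floor_add_one _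
    have h2 : r / 40 ≤ 1 + i := by
      have : (⌊r / 40⌋₊ : ℝ) ≤ i := by exact_mod_cast hi
      linarith
    have h3 : Real.log (r / 40) ≤ Real.log (1 + i) := Real.log_le_log (by positivity) h2
    rw [Real.log_div (by linarith) (by norm_num), hr, Real.log_sqrt (by linarith)] at h3
    have h4 : Real.log 40 ≤ 4 := by
      have h5 : (40 : ℝ) ≤ exp 4 := by
        have h4 : exp 4 = exp 1 ^ 4 := by rw [← exp_nat_mul]; norm_num
        rw [h4]
        have h6 : (2.7 : ℝ) ^ 4 ≤ exp 1 ^ 4 := by
          apply pow_le_pow_left₀ (by norm_num)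
          have := Real.exp_one_gt_d9
          linarith
        refine le_trans ?_ h6
        norm_num
      calc Real.log 40 ≤ Real.log (exp 4) := Real.log_le_log (by norm_num) h5
        _ = 4 := Real.log_exp 4
    linarith

/-- **Ranked theorem**, finite form. -/
theorem ranked (t : ℝ) (ht : 1 ≤ t) (N : ℕ) : 1 ≤ N → ∀ (J : Type) [Fintype J] (d : ℕ)
    (a : Fin d → J → ℝ), (∀ i j, |a i j| ≤ 1) → (∀ j, ∑ i, a i j ^ 2 ≤ t) →
    ∀ x0 : J → ℝ, (∀ j, |x0 j| ≤ 1) → Fintype.card J ≤ N →
    ∃ x : J → ℝ, (∀ j, |x j| = 1) ∧ (∀ j, |x0 j| = 1 → x j = x0 j) ∧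
      ∀ i : Fin d, |∑ j, a i j * (x j - x0 j)|
          ≤ Real.sqrt t * (20 * 140058 * Real.sqrt (Real.sqrt (XX N i))) ∧
        |∑ j, a i j * (x j - x0 j)|
          ≤ Real.sqrt t * (20 * 140058 * (1 + Real.sqrt (XX N i / lam0 t))) := by
  classical
  induction N using Nat.strong_induction_on with
  | _ N ih =>
    intro hN J _ d a a1 hcol x0 hx0 hJ
    have hst : 0 ≤ Real.sqrt t := Real.sqrt_nonneg t
    have hl := lam0_ge t
    have hNR : (1 : ℝ) ≤ N := by exact_mod_cast hN
    have hlogN : 0 ≤ Real.log N := Real.log_nonneg hNR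
    have hJR : (Fintype.card J : ℝ) ≤ N := by exact_mod_cast hJ
    set x : ℝ := 1 + Real.log N with hx
    by_cases hsmall : x ≤ max (lam0 t) 6
    · -- one stage suffices
      obtain ⟨z, h1, h2, -, h4, h5⟩ := one_stage a t ht a1 hcol x0 hx0 0 (x + 1) (by linarith)
      have hal : (H167FK.Sys.alive z).card = 0 := by
        have h6 : ((H167FK.Sys.alive z).card : ℝ) < 1 := by
          refine lt_of_le_of_lt h5 ?_
          have h7 : exp (-(x + 1)) = exp (-2) * (1 / N) := by
            have : -(x + 1) = -2 + -Real.log N := by rw [hx]; ring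
            rw [this, exp_add, exp_neg (Real.log N), exp_log (by linarith), one_div (N : ℝ)]
          have h8 : exp (-2) ≤ 1 / 4 := by
            rw [exp_neg, inv_le_comm₀ (exp_pos _) (by norm_num)]
            have h9 : exp 2 = exp 1 ^ 2 := by rw [← exp_nat_mul]; norm_num
            rw [h9]
            have := Real.exp_one_gt_d9
            nlinarith
          rw [h7]
          calc 20 * ((0 : ℕ) : ℝ) + 2 * (Fintype.card J : ℝ) * (exp (-2) * (1 / N))
              ≤ 2 * (N : ℝ) * ((1 / 4) * (1 / N)) := by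
                push_cast
                rw [mul_zero, zero_add]
                gcongr
            _ = 1 / 2 := by field_simp; norm_num
            _ < 1 := by norm_num
        have h7 : (H167FK.Sys.alive z).card < 1 := by exact_mod_cast h6
        omega
      refine ⟨z, fun j => ?_, h2, fun i => ?_⟩
      · by_contra hcon
        have : j ∈ H167FK.Sys.alive z := mem_alive.2 (lt_of_le_of_ne (h1 j) hcon)
        rw [Finset.card_eq_zero] at hal
        rw [hal] at this
        exact absurd this (Finset.notMem_empty j)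
      · have hX := XX_ge hN i
        have herr : |∑ j, a i j * (z j - x0 j)| ≤ Real.sqrt t * (20 * 140058) := by
          rcases le_max_iff.1 hsmall with h6 | h6
          · refine (h4 i).2.trans ?_
            have h7 : Real.sqrt ((x + 1) / lam0 t) ≤ 2 := by
              rw [Real.sqrt_le_left (by norm_num), div_le_iff₀ (by linarith)]
              nlinarith
            nlinarith
          · refine (h4 i).1.trans ?_
            have h7 : Real.sqrt (Real.sqrt (x + 1)) ≤ 2 := by
              rw [Real.sqrt_le_left (by norm_num), Real.sqrt_le_left (by norm_num)]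
              linarith
            nlinarith
        have e1 : 1 ≤ Real.sqrt (Real.sqrt (XX N i)) := by
          rw [Real.one_le_sqrt, Real.one_le_sqrt]; exact hX
        have e2 : 0 ≤ Real.sqrt (XX N i / lam0 t) := Real.sqrt_nonneg _
        constructor
        · refine herr.trans (mul_le_mul_of_nonneg_left ?_ hst)
          linarith
        · refine herr.trans (mul_le_mul_of_nonneg_left ?_ hst)
          linarith
    · push Not at hsmall
      have hx6 : 6 < x := lt_of_le_of_lt (le_max_right _ _) hsmall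
      have hxl : lam0 t < x := lt_of_le_of_lt (le_max_left _ _) hsmall
      obtain ⟨n1, n2, n3, n4, n5⟩ := stage_num (N := N) hx6
      set N' : ℕ := ⌊2 * Real.sqrt N⌋₊ with hN'
      set R : ℕ := ⌊Real.sqrt N / 40⌋₊ with hR
      obtain ⟨z, h1, h2, h3, h4, h5⟩ := one_stage a t ht a1 hcol x0 hx0 R (x / 2) (by linarith)
      have hal : (H167FK.Sys.alive z).card ≤ N' := by
        apply Nat.le_floor
        refine h5.trans ?_
        have h6 : 2 * (Fintype.card J : ℝ) * exp (-(x / 2)) ≤ 2 * (N : ℝ) * exp (-(x / 2)) := by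
          have := exp_pos (-(x / 2))
          gcongr
        linarith
      obtain ⟨y, g1, g2, g3⟩ := ih N' n1 n2 {j : J // |z j| < 1} d (fun i j => a i j)
        (fun i j => a1 i j) (fun j => hcol j) (fun j => z j) (fun j => h1 j) (by
          rw [Fintype.card_subtype]
          refine le_trans (Finset.card_le_card ?_) hal
          intro j hj
          rw [mem_alive]
          exact (Finset.mem_filter.1 hj).2)
      let w : J → ℝ := fun j => if h : |z j| < 1 then y ⟨j, h⟩ else z j
      have hw1 : ∀ j, |w j| = 1 := by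
        intro j
        by_cases h : |z j| < 1
        · simp only [w, dif_pos h]; exact g1 _
        · simp only [w, dif_neg h]; exact le_antisymm (h1 j) (not_lt.1 h)
      have hw2 : ∀ j, |x0 j| = 1 → w j = x0 j := by
        intro j hj
        have h6 := h2 j hj
        have h7 : ¬ |z j| < 1 := by rw [h6, hj]; exact lt_irrefl _
        simp only [w, dif_neg h7]
        exact h6
      have hsum : ∀ i, ∑ j, a i j * (w j - x0 j)
          = ∑ j, a i j * (z j - x0 j) + ∑ j : {j : J // |z j| < 1}, a i j * (y j - z j) := by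
        intro i
        have h6 : ∑ j : {j : J // |z j| < 1}, a i j * (y j - z j)
            = ∑ j, a i j * (w j - z j) := by
          have h7 : ∀ j : {j : J // |z j| < 1}, a i j * (y j - z j) = a i j * (w j - z j) := by
            intro j
            have : w j = y j := by simp only [w, dif_pos j.2]
            rw [this]
          rw [Finset.sum_congr rfl fun j _ => h7 j]
          have h8 := Finset.sum_subtype_of_mem (fun j => a i j * (w j - z j))
            (p := fun j => |z j| < 1) (s := Finset.univ.filter (fun j => |z j| < 1))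
            (fun j hj => (Finset.mem_filter.1 hj).2)
          have h9 : ∑ j : {j : J // |z j| < 1}, a i j * (w j - z j)
              = ∑ j ∈ Finset.univ.filter (fun j => |z j| < 1), a i j * (w j - z j) := by
            rw [Finset.sum_subtype (Finset.univ.filter (fun j => |z j| < 1))
              (p := fun j => |z j| < 1) (fun j => by simp) (fun j => a i j * (w j - z j))]
          rw [h9, Finset.sum_filter]
          refine Finset.sum_congr rfl fun j _ => ?_
          split_ifs with h
          · rfl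
          · simp only [w, dif_neg h, sub_self, mul_zero]
        rw [h6, ← Finset.sum_add_distrib]
        exact Finset.sum_congr rfl fun j _ => by ring
      refine ⟨w, hw1, hw2, fun i => ?_⟩
      have hXX' : XX N' i ≤ 7 / 10 * x := (min_le_right _ _).trans n3
      have hmono : XX N' i ≤ XX N i := by
        unfold XX
        apply min_le_min_left
        linarith
      obtain ⟨g4, g5⟩ := g3 i
      rw [hsum i]
      rcases Nat.lt_or_ge (i : ℕ) R with hi | hi
      · rw [h3 i hi, zero_add]
        constructor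
        · refine g4.trans (mul_le_mul_of_nonneg_left ?_ hst)
          have := Real.sqrt_le_sqrt (Real.sqrt_le_sqrt hmono)
          linarith
        · refine g5.trans (mul_le_mul_of_nonneg_left ?_ hst)
          have : Real.sqrt (XX N' i / lam0 t) ≤ Real.sqrt (XX N i / lam0 t) :=
            Real.sqrt_le_sqrt (div_le_div_of_nonneg_right hmono (by linarith))
          linarith
      · have hXe : XX N i = x := n5 i hi
        rw [hXe]
        constructor
        · refine (abs_add_le _ _).trans ((add_le_add (h4 i).1 g4).trans ?_)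
          have e1 := step1 (by linarith : 0 ≤ x)
          have e2 : Real.sqrt (Real.sqrt (XX N' i)) ≤ Real.sqrt (Real.sqrt (7 / 10 * x)) :=
            Real.sqrt_le_sqrt (Real.sqrt_le_sqrt hXX')
          calc 140058 * Real.sqrt t * Real.sqrt (Real.sqrt (x / 2))
              + Real.sqrt t * (20 * 140058 * Real.sqrt (Real.sqrt (XX N' i)))
              ≤ Real.sqrt t * (140058 * Real.sqrt (Real.sqrt (x / 2))
                + 20 * 140058 * Real.sqrt (Real.sqrt (7 / 10 * x))) := by
                rw [mul_add]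
                have := mul_le_mul_of_nonneg_left e2 hst
                nlinarith
            _ ≤ _ := mul_le_mul_of_nonneg_left e1 hst
        · refine (abs_add_le _ _).trans ((add_le_add (h4 i).2 g5).trans ?_)
          have e1 := step2 hl hxl.le
          have e2 : Real.sqrt (XX N' i / lam0 t) ≤ Real.sqrt (7 / 10 * x / lam0 t) :=
            Real.sqrt_le_sqrt (div_le_div_of_nonneg_right hXX' (by linarith))
          calc 140058 * Real.sqrt t * (1 + Real.sqrt (x / 2 / lam0 t))
              + Real.sqrt t * (20 * 140058 * (1 + Real.sqrt (XX N' i / lam0 t)))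
              ≤ Real.sqrt t * (140058 * (1 + Real.sqrt (x / 2 / lam0 t))
                + 20 * 140058 * (1 + Real.sqrt (7 / 10 * x / lam0 t))) := by
                rw [mul_add]
                have := mul_le_mul_of_nonneg_left e2 hst
                nlinarith
            _ ≤ _ := mul_le_mul_of_nonneg_left e1 hst

end Pool.Agent.K1H87.KT
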