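import Pool.Agent.K1H87.KT.Blk
import Pool.Agent.H167R2.KLWeight

/-!
# One stage of the process with weights, from an arbitrary starting point

The file follows `KLWeight` of the starting library. New are the starting point and the bound for
the rows of small energy.
-/

set_option autoImplicit false

namespace Pool.Agent.K1H87.KT

open Finset Real H167FK H167KL

variable {I : Type*} [Fintype I] {n : ℕ}

/-- Sum of truncated terms of a quickly increasing sequence. -/
theorem sum_trunc (s : ℝ) (hs : 3 ≤ s) (T : ℕ → ℝ) (h0 : ∀ k, 0 ≤ T k)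
    (h : ∀ k, s * T k ≤ T (k + 1)) (b : ℝ) (hb0 : 0 < b) (hb1 : b ≤ 1) (m : ℕ) :
    ∑ k ∈ range m, (if T k ≤ s ^ 3 then min b (T k) else 0) ≤ b * (6 + Real.log (1 / b)) := by
  have hlog : 0 ≤ Real.log (1 / b) := Real.log_nonneg (by rw [le_div_iff₀ hb0]; linarith)
  induction m with
  | zero =>
    rw [Finset.range_zero, Finset.sum_empty]
    positivity
  | succ m ih =>
    by_cases hm : T m ≤ s ^ 3
    · have h1 : ∑ k ∈ range (m + 1), (if T k ≤ s ^ 3 then min b (T k) else 0)
          ≤ b * ∑ k ∈ range (m + 1), min 1 (T k / b) := by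
        rw [Finset.mul_sum]
        refine Finset.sum_le_sum fun k _ => ?_
        have e1 : b * min 1 (T k / b) = min b (T k) := by
          rw [mul_min_of_nonneg _ _ hb0.le, mul_one, mul_div_cancel₀ _ hb0.ne']
        rw [e1]
        split_ifs
        · exact le_rfl
        · exact le_min hb0.le (h0 k)
      set N : ℕ := ⌈Real.log (1 / b)⌉₊ with hN
      have hN1 : Real.log (1 / b) ≤ N := Nat.le_ceil _
      have hN2 : (N : ℝ) < Real.log (1 / b) + 1 := Nat.ceil_lt_add_one hlog
      have hbN : 1 / b ≤ s ^ N := by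
        have e0 : (0 : ℝ) < 1 / b := by positivity
        have e1 : exp 1 ≤ s := by
          have := Real.exp_one_lt_d9
          linarith
        calc 1 / b = exp (Real.log (1 / b)) := (Real.exp_log e0).symm
          _ ≤ exp (N : ℝ) := Real.exp_le_exp.2 hN1
          _ = exp 1 ^ N := by rw [← Real.exp_nat_mul, mul_one]
          _ ≤ s ^ N := pow_le_pow_left₀ (Real.exp_pos _).le e1 N
      have h2 := sum_min_le s (by linarith) (fun k => T k / b)
        (fun k => div_nonneg (h0 k) hb0.le)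
        (fun k => by
          show s * (T k / b) ≤ T (k + 1) / b
          rw [mul_div_assoc']
          exact div_le_div_of_nonneg_right (h k) hb0.le) (N + 3) m (by
          show T m / b ≤ s ^ (N + 3)
          calc T m / b = (1 / b) * T m := by ring
            _ ≤ s ^ N * s ^ 3 := mul_le_mul hbN hm (h0 m) (by positivity)
            _ = s ^ (N + 3) := by rw [pow_add])
      refine h1.trans (mul_le_mul_of_nonneg_left (h2.trans ?_) hb0.le)
      push_cast
      linarith
    · rw [Finset.sum_range_succ, if_neg hm, add_zero]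
      exact ih

/-- The coefficient of the second bound. -/
noncomputable def cst (t Y : ℝ) : ℝ := 520 * Real.sqrt (Real.sqrt (960 * Y)) * Real.sqrt t

theorem cst_nonneg (t Y : ℝ) : 0 ≤ cst t Y := by unfold cst; positivity

/-- One block. -/
theorem block_k (a : I → Fin n → ℝ) (t : ℝ) (ht : 1 ≤ t) (a1 : ∀ i j, |a i j| ≤ 1)
    (hcolt : ∀ j, ∑ i, a i j ^ 2 ≤ t) (x0 : Fin n → ℝ) (hx0 : ∀ j, |x0 j| ≤ 1)
    (b : I → ℝ) (hb0 : ∀ i, 0 < b i) (hb1 : ∀ i, b i ≤ 1)
    (hb : ∀ i, b i = 1 ∨ ∑ j, a i j ^ 2 ≤ t * b i ^ 4) (s : ℕ) (hs3 : 3 ≤ s)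
    (Y : ℝ) (hY : 1 ≤ Y) (hsY : 960 * Y ≤ (s : ℝ) ^ 4) (ε : ℝ)
    (h1 : 16 ≤ ε * s) (h2 : 8 * (s : ℝ) ^ 8 * exp (-Y) ≤ ε) (k : ℕ) :
    ∃ x : Fin n → ℝ, (∀ j, |x j| ≤ 1) ∧ (∀ j ∈ B n (s ^ 8) k, |x0 j| = 1 → x j = x0 j) ∧
      (∀ i, |∑ j ∈ B n (s ^ 8) k, a i j * (x j - x0 j)| ≤ cost t Y *
        (if rt (fun i j => a i j / Real.sqrt t) (s ^ 8) (s ^ 4) i k ≤ (s : ℝ) ^ 3 then
          min 1 (s * rt (fun i j => a i j / Real.sqrt t) (s ^ 8) (s ^ 4) i k) else 0)) ∧
      (∀ i, |∑ j ∈ B n (s ^ 8) k, a i j * (x j - x0 j)| ≤ cst t Y *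
        (if rt (fun i j => a i j / Real.sqrt t) (s ^ 8) (s ^ 4) i k ≤ (s : ℝ) ^ 3 then
          min (b i) (rt (fun i j => a i j / Real.sqrt t) (s ^ 8) (s ^ 4) i k) else 0)) ∧
      (((B n (s ^ 8) k).filter (fun j => |x j| < 1)).card : ℝ)
        ≤ ((s ^ 8 : ℕ) : ℝ) ^ k * (ε / 2) := by
  classical
  have hs : 2 ≤ s := by omega
  have hst : 0 < Real.sqrt t := Real.sqrt_pos.mpr (by linarith)
  have hst2 : Real.sqrt t ^ 2 = t := Real.sq_sqrt (by linarith)
  set A : I → Fin n → ℝ := fun i j => a i j / Real.sqrt t with hA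
  have hAsq : ∀ i j, a i j ^ 2 = t * A i j ^ 2 := by
    intro i j
    simp only [hA, div_pow, hst2]
    field_simp
  have hcol : ∀ j, ∑ i, A i j ^ 2 ≤ 1 := by
    intro j
    have h3 := hcolt j
    simp only [hAsq] at h3
    rw [← Finset.mul_sum] at h3
    have h4 : t * ∑ i, A i j ^ 2 ≤ t * 1 := by linarith
    exact le_of_mul_le_mul_left h4 (by linarith)
  set M : ℕ := s ^ 8 with hM
  set σ : ℕ := s ^ 4 with hσdef
  have hs4 : 2 ≤ s ^ 4 := by
    calc 2 ≤ s := hs
      _ ≤ s ^ 4 := Nat.le_self_pow (by norm_num) s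
  have hM2σ : 2 * σ ≤ M := by
    have : s ^ 8 = s ^ 4 * s ^ 4 := by ring
    rw [hM, this, hσdef]
    exact Nat.mul_le_mul_right _ hs4
  have hM2 : 2 ≤ M := by omega
  have hMR : (M : ℝ) = (s : ℝ) ^ 8 := by rw [hM]; push_cast; ring
  have hsR : (2 : ℝ) ≤ s := by exact_mod_cast hs
  set T : I → ℝ := fun i => rt A M σ i k with hT
  have ht0 : ∀ i, 0 ≤ T i := fun i => rt_nonneg _ _ _ _ _
  have ht4 : ∀ i, T i ^ 4 = r A M σ i k := fun i => rt_pow _ _ _ _ _
  -- masses on the block
  have hmass : ∀ i, ∑ j : B n M k, a i j ^ 2 ≤ t * T i ^ 4 := by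
    intro i
    rw [ht4, Finset.sum_coe_sort (B n M k) (fun j => a i j ^ 2)]
    simp only [hAsq]
    rw [← Finset.mul_sum]
    exact mul_le_mul_of_nonneg_left (block_le_r A M σ i k) (by linarith)
  let P : Blk I (B n M k) :=
    { a := fun i j => a i j
      I0 := Finset.univ.filter (fun i => (s : ℝ) ^ 3 < T i)
      I1 := Finset.univ.filter (fun i => 0 < T i ∧ T i ≤ (s : ℝ) ^ 3)
      t := t
      ht := ht
      M := Y
      hM := hY
      a1 := fun i j => a1 i j
      col := fun j => hcolt j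
      x0 := fun j => x0 j
      hx0 := fun j => hx0 j
      τ := fun i => min (b i) (T i)
      τ_pos := by
        intro i hi
        rw [Finset.mem_filter] at hi
        exact lt_min (hb0 i) hi.2.1
      τ_mass := by
        intro i _
        have hle : ∑ j : B n M k, a i j ^ 2 ≤ ∑ j, a i j ^ 2 := by
          rw [Finset.sum_coe_sort (B n M k) (fun j => a i j ^ 2)]
          exact Finset.sum_le_sum_of_subset_of_nonneg (Finset.subset_univ _)
            (fun _ _ _ => sq_nonneg _)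
        rcases le_total (b i) (T i) with h | h
        · rw [min_eq_left h]
          rcases hb i with h3 | h3
          · left; rw [h3]
          · right; exact hle.trans h3
        · rw [min_eq_right h]
          right
          exact hmass i }
  have hPh : P.h = Real.sqrt (960 * Y) := rfl
  have hPC0 : P.C0 = cost t Y := rfl
  have hPt : P.t = t := rfl
  obtain ⟨x, hx1, hxf, hx0', hxI1, hxal⟩ := P.block
  let X : Fin n → ℝ := fun j => if h : j ∈ B n M k then x ⟨j, h⟩ else 1
  have hXsum : ∀ i, ∑ j ∈ B n M k, a i j * (X j - x0 j) = ∑ j : B n M k, a i j * (x j - x0 j) := by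
    intro i
    rw [← Finset.sum_coe_sort (B n M k) (fun j => a i j * (X j - x0 j))]
    refine Finset.sum_congr rfl fun j _ => ?_
    simp [X, j.2]
  have hz : ∀ i, T i = 0 → ∑ j : B n M k, a i j * (x j - x0 j) = 0 := by
    intro i hzero
    have hz : ∀ j : B n M k, a i j = 0 := by
      intro j
      have h3 := hmass i
      rw [hzero] at h3
      have h4 := Finset.single_le_sum (f := fun j : B n M k => a i j ^ 2)
        (fun j _ => sq_nonneg _) (Finset.mem_univ j)
      have h5 : a i j ^ 2 ≤ 0 := by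
        refine h4.trans (h3.trans ?_)
        norm_num
      have h6 := sq_nonneg (a i j)
      exact pow_eq_zero_iff (two_ne_zero) |>.mp (le_antisymm h5 h6)
    exact Finset.sum_eq_zero fun j _ => by rw [hz j, zero_mul]
  have hI0z : ∀ i, (s : ℝ) ^ 3 < T i → ∑ j : B n M k, a i j * (x j - x0 j) = 0 := fun i h =>
    hx0' i (Finset.mem_filter.mpr ⟨Finset.mem_univ i, h⟩)
  have hsh : Real.sqrt (Real.sqrt (960 * Y)) ≤ s := by
    rw [Real.sqrt_le_left (by linarith), Real.sqrt_le_left (by positivity)]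
    calc 960 * Y ≤ (s : ℝ) ^ 4 := hsY
      _ = ((s : ℝ) ^ 2) ^ 2 := by ring
  have hcc : cst t Y ≤ cost t Y * s := by
    have hlog : 0 ≤ Real.log t := Real.log_nonneg ht
    have e1 : 520 * Real.sqrt t ≤ cost t Y := by
      unfold cost
      have : 0 ≤ 753 * Real.sqrt (960 * Y) * (1 + Real.log t) ^ (3 / 2 : ℝ) := by positivity
      linarith
    unfold cst
    calc 520 * Real.sqrt (Real.sqrt (960 * Y)) * Real.sqrt t
        = (520 * Real.sqrt t) * Real.sqrt (Real.sqrt (960 * Y)) := by ring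
      _ ≤ cost t Y * s := mul_le_mul e1 hsh (Real.sqrt_nonneg _) (cost_nonneg ht)
  refine ⟨X, ?_, ?_, ?_, ?_, ?_⟩
  · intro j
    by_cases h : j ∈ B n M k
    · simp only [X, h, dif_pos]; exact hx1 _
    · simp [X, h]
  · intro j h h3
    simp only [X, h, dif_pos]
    exact hxf ⟨j, h⟩ h3
  · intro i
    rw [hXsum]
    by_cases h : T i ≤ (s : ℝ) ^ 3
    · rw [if_pos h]
      rcases (ht0 i).lt_or_eq with hpos | hzero
      · obtain ⟨e1, e2⟩ := hxI1 i (Finset.mem_filter.mpr ⟨Finset.mem_univ i, hpos, h⟩)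
        rcases le_total 1 ((s : ℝ) * T i) with h3 | h3
        · rw [min_eq_left h3, mul_one]; exact e1
        · rw [min_eq_right h3]
          refine e2.trans ?_
          have e3 : min 1 (P.τ i) ≤ T i := (min_le_right _ _).trans (min_le_right _ _)
          calc 520 * Real.sqrt P.h * Real.sqrt P.t * min 1 (P.τ i)
              ≤ cst t Y * T i := by
                unfold cst
                rw [hPh, hPt]
                exact mul_le_mul_of_nonneg_left e3 (by positivity)
            _ ≤ (cost t Y * s) * T i := mul_le_mul_of_nonneg_right hcc (ht0 i)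
            _ = cost t Y * (s * T i) := by ring
      · rw [hz i hzero.symm, abs_zero]
        have hs0 : (0 : ℝ) ≤ s := by linarith
        exact mul_nonneg (cost_nonneg ht) (le_min zero_le_one (mul_nonneg hs0 (ht0 i)))
    · rw [if_neg h]
      push Not at h
      rw [hI0z i h]; simp
  · intro i
    rw [hXsum]
    by_cases h : T i ≤ (s : ℝ) ^ 3
    · rw [if_pos h]
      rcases (ht0 i).lt_or_eq with hpos | hzero
      · obtain ⟨e1, e2⟩ := hxI1 i (Finset.mem_filter.mpr ⟨Finset.mem_univ i, hpos, h⟩)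
        refine e2.trans ?_
        unfold cst
        rw [hPh, hPt]
        exact mul_le_mul_of_nonneg_left (min_le_right _ _) (by positivity)
      · rw [hz i hzero.symm, abs_zero]
        exact mul_nonneg (cst_nonneg _ _) (le_min (hb0 i).le (ht0 i))
    · rw [if_neg h]
      push Not at h
      rw [hI0z i h]; simp
  · -- counting
    have hcard : ((B n M k).filter (fun j => |X j| < 1)).card = (H167FK.Sys.alive x).card := by
      rw [← Finset.card_map (Function.Embedding.subtype (fun j => j ∈ B n M k))]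
      congr 1
      ext j
      simp only [Finset.mem_filter, Finset.mem_map, H167FK.Sys.alive, Finset.mem_univ, true_and,
        Function.Embedding.coe_subtype]
      constructor
      · rintro ⟨hj, hj2⟩
        refine ⟨⟨j, hj⟩, ?_, rfl⟩
        simpa [X, hj] using hj2
      · rintro ⟨⟨j', hj'⟩, hj2, rfl⟩
        refine ⟨hj', ?_⟩
        simpa [X, hj'] using hj2
    rw [hcard]
    refine hxal.trans ?_
    have hrsum := sum_r_le A hcol M σ hM2 hM2σ k
    have hcardB : ((Fintype.card (B n M k) : ℕ) : ℝ) ≤ (M : ℝ) ^ (k + 1) := by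
      rw [Fintype.card_coe]
      exact_mod_cast card_B_le (n := n) M k hM2
    have hI0 : (P.I0.card : ℝ) * (s : ℝ) ^ 12 ≤ 2 * (M : ℝ) ^ (k + 1) := by
      have h3 := Finset.card_nsmul_le_sum P.I0 (fun i => r A M σ i k) ((s : ℝ) ^ 12) (by
        intro i hi
        have hi' := (Finset.mem_filter.mp hi).2
        rw [← ht4]
        calc (s : ℝ) ^ 12 = ((s : ℝ) ^ 3) ^ 4 := by ring
          _ ≤ T i ^ 4 := by gcongr)
      rw [nsmul_eq_mul] at h3
      refine h3.trans (le_trans ?_ hrsum)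
      exact Finset.sum_le_sum_of_subset_of_nonneg (Finset.subset_univ _)
        (fun i _ _ => r_nonneg _ _ _ _ _)
    have hMk : (0 : ℝ) < (M : ℝ) ^ k := by
      have : (0 : ℝ) < M := by exact_mod_cast (by omega : 0 < M)
      positivity
    have hMk1 : (M : ℝ) ^ (k + 1) = (M : ℝ) ^ k * (s : ℝ) ^ 8 := by rw [pow_succ, hMR]
    rw [hMk1] at hI0 hcardB
    have hs0 : (0 : ℝ) < s := by linarith
    -- number of frozen rows
    have hs3R : (3 : ℝ) ≤ s := by exact_mod_cast hs3
    have hI0' : 20 * (P.I0.card : ℝ) ≤ (M : ℝ) ^ k * (ε / 4) := by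
      have h3 : (20 * (P.I0.card : ℝ)) * (s : ℝ) ^ 12 ≤ ((M : ℝ) ^ k * (ε / 4)) * (s : ℝ) ^ 12 := by
        have h4 : 160 ≤ ε * (s : ℝ) ^ 4 := by
          have h5 : (27 : ℝ) ≤ (s : ℝ) ^ 3 := by
            calc (27 : ℝ) = 3 ^ 3 := by norm_num
              _ ≤ (s : ℝ) ^ 3 := pow_le_pow_left₀ (by norm_num) hs3R 3
          calc (160 : ℝ) ≤ 16 * 27 := by norm_num
            _ ≤ (ε * s) * (s : ℝ) ^ 3 := mul_le_mul h1 h5 (by norm_num) (by linarith)
            _ = ε * (s : ℝ) ^ 4 := by ring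
        have h5 : 0 < (M : ℝ) ^ k * (s : ℝ) ^ 8 := by positivity
        calc 20 * (P.I0.card : ℝ) * (s : ℝ) ^ 12 = 20 * ((P.I0.card : ℝ) * (s : ℝ) ^ 12) := by ring
          _ ≤ 20 * (2 * ((M : ℝ) ^ k * (s : ℝ) ^ 8)) := mul_le_mul_of_nonneg_left hI0 (by norm_num)
          _ = ((M : ℝ) ^ k * (s : ℝ) ^ 8) * (160 / 4) := by ring
          _ ≤ ((M : ℝ) ^ k * (s : ℝ) ^ 8) * ((ε * (s : ℝ) ^ 4) / 4) := by
              apply mul_le_mul_of_nonneg_left _ h5.le
              linarith
          _ = _ := by ring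
      exact le_of_mul_le_mul_right h3 (by positivity)
    have hexp : 0 < exp (-Y) := exp_pos _
    have hlast : 2 * (Fintype.card (B n M k) : ℝ) * exp (-P.M)
        ≤ (M : ℝ) ^ k * (ε / 4) := by
      calc 2 * (Fintype.card (B n M k) : ℝ) * exp (-P.M)
          ≤ 2 * ((M : ℝ) ^ k * (s : ℝ) ^ 8) * exp (-Y) := by
            apply mul_le_mul_of_nonneg_right _ hexp.le
            linarith
        _ = (M : ℝ) ^ k * ((8 * (s : ℝ) ^ 8 * exp (-Y)) / 4) := by ring
        _ ≤ (M : ℝ) ^ k * (ε / 4) := by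
            apply mul_le_mul_of_nonneg_left _ hMk.le
            linarith
    linarith


/-- Weighted statement for sorted weights, with abstract parameters. -/
theorem stage_aux (a : I → Fin n → ℝ) (t : ℝ) (ht : 1 ≤ t) (a1 : ∀ i j, |a i j| ≤ 1)
    (hcol : ∀ j, ∑ i, a i j ^ 2 ≤ t) (x0 : Fin n → ℝ) (hx0 : ∀ j, |x0 j| ≤ 1)
    (b : I → ℝ) (hb0 : ∀ i, 0 < b i) (hb1 : ∀ i, b i ≤ 1)
    (hb : ∀ i, b i = 1 ∨ ∑ j, a i j ^ 2 ≤ t * b i ^ 4) (s : ℕ) (hs3 : 3 ≤ s)
    (Y : ℝ) (hY : 1 ≤ Y) (hsY : 960 * Y ≤ (s : ℝ) ^ 4) (ε : ℝ) (hε0 : 0 < ε) (hε1 : ε ≤ 1)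
    (h1 : 16 ≤ ε * s) (h2 : 8 * (s : ℝ) ^ 8 * exp (-Y) ≤ ε)
    (p : Fin n → ℝ) (hp0 : ∀ j, 0 ≤ p j) (hp : Antitone p) :
    ∃ x : Fin n → ℝ, (∀ j, |x j| ≤ 1) ∧ (∀ j, |x0 j| = 1 → x j = x0 j) ∧
      (∀ i, |∑ j, a i j * (x j - x0 j)| ≤ 6 * cost t Y) ∧
      (∀ i, |∑ j, a i j * (x j - x0 j)| ≤ cst t Y * (b i * (6 + Real.log (1 / b i)))) ∧
      ∑ j, (if |x j| < 1 then p j else 0) ≤ ε * ∑ j, p j := by
  classical
  have hs : 2 ≤ s := by omega
  set M : ℕ := s ^ 8 with hM
  have hM2 : 2 ≤ M := by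
    calc 2 ≤ s := hs
      _ ≤ s ^ 8 := Nat.le_self_pow (by norm_num) s
  choose X hX1 hXf hX2 hX2' hX3 using block_k a t ht a1 hcol x0 hx0 b hb0 hb1 hb s hs3 Y hY hsY
    ε h1 h2
  have hsR : (2 : ℝ) ≤ s := by exact_mod_cast hs
  let x : Fin n → ℝ := fun j => X (Nat.log M j) j
  have hxB : ∀ k, ∀ j ∈ B n M k, x j = X k j := by
    intro k j hj
    unfold B at hj
    rw [Finset.mem_filter] at hj
    simp only [x]
    rw [hj.2]
  have hmaps : ∀ j ∈ (Finset.univ : Finset (Fin n)), Nat.log M j ∈ Finset.range n := by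
    intro j _
    rw [Finset.mem_range]
    exact lt_of_le_of_lt (Nat.log_le_self M j) j.2
  have hfib : ∀ h : Fin n → ℝ, ∑ j, h j = ∑ k ∈ Finset.range n, ∑ j ∈ B n M k, h j := by
    intro h
    rw [← Finset.sum_fiberwise_of_maps_to hmaps]
    rfl
  have hxk : ∀ i k, ∑ j ∈ B n M k, a i j * (x j - x0 j) = ∑ j ∈ B n M k, a i j * (X k j - x0 j) :=
    fun i k => Finset.sum_congr rfl fun j hj => by rw [hxB k j hj]
  refine ⟨x, fun j => hX1 _ j, fun j hj => ?_, ?_, ?_, ?_⟩
  · exact hXf (Nat.log M j) j (by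
      unfold B
      rw [Finset.mem_filter]
      exact ⟨Finset.mem_univ _, rfl⟩) hj
  · intro i
    rw [hfib]
    refine (Finset.abs_sum_le_sum_abs _ _).trans ?_
    have h3 : ∀ k ∈ Finset.range n, |∑ j ∈ B n M k, a i j * (x j - x0 j)| ≤ cost t Y *
        (if rt (fun i j => a i j / Real.sqrt t) M (s ^ 4) i k ≤ (s : ℝ) ^ 3 then
          min 1 (s * rt (fun i j => a i j / Real.sqrt t) M (s ^ 4) i k) else 0) := by
      intro k _
      rw [hxk]
      exact hX2 k i
    refine (Finset.sum_le_sum h3).trans ?_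
    rw [← Finset.mul_sum]
    have h5 := sum_le_six (s : ℝ) hsR (fun k => rt (fun i j => a i j / Real.sqrt t) M (s ^ 4) i k)
      (fun k => rt_nonneg _ _ _ _ _) (fun k => rt_succ _ M s i k) n
    calc _ ≤ cost t Y * 6 := mul_le_mul_of_nonneg_left h5 (cost_nonneg ht)
      _ = 6 * cost t Y := by ring
  · intro i
    rw [hfib]
    refine (Finset.abs_sum_le_sum_abs _ _).trans ?_
    have h3 : ∀ k ∈ Finset.range n, |∑ j ∈ B n M k, a i j * (x j - x0 j)| ≤ cst t Y *
        (if rt (fun i j => a i j / Real.sqrt t) M (s ^ 4) i k ≤ (s : ℝ) ^ 3 then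
          min (b i) (rt (fun i j => a i j / Real.sqrt t) M (s ^ 4) i k) else 0) := by
      intro k _
      rw [hxk]
      exact hX2' k i
    refine (Finset.sum_le_sum h3).trans ?_
    rw [← Finset.mul_sum]
    exact mul_le_mul_of_nonneg_left (sum_trunc (s : ℝ) (by exact_mod_cast hs3)
      (fun k => rt (fun i j => a i j / Real.sqrt t) M (s ^ 4) i k)
      (fun k => rt_nonneg _ _ _ _ _) (fun k => rt_succ _ M s i k) (b i) (hb0 i) (hb1 i) n)
      (cst_nonneg _ _)
  · -- weights
    have hzero : ∑ j ∈ B n M 0, (if |x j| < 1 then p j else 0) ≤ 0 := by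
      have h3 := hX3 0
      have h4 : ((B n M 0).filter (fun j => |X 0 j| < 1)).card = 0 := by
        have h5 : ((((B n M 0).filter (fun j => |X 0 j| < 1)).card : ℕ) : ℝ) < 1 := by
          refine lt_of_le_of_lt h3 ?_
          rw [pow_zero, one_mul]; linarith
        have h6 : ((B n M 0).filter (fun j => |X 0 j| < 1)).card < 1 := by exact_mod_cast h5
        omega
      rw [Finset.card_eq_zero] at h4
      apply le_of_eq
      refine Finset.sum_eq_zero fun j hj => ?_
      rw [hxB 0 j hj, if_neg]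
      intro h5
      have : j ∈ (B n M 0).filter (fun j => |X 0 j| < 1) := Finset.mem_filter.mpr ⟨hj, h5⟩
      rw [h4] at this
      exact absurd this (Finset.notMem_empty j)
    have hsucc : ∀ k, ∑ j ∈ B n M (k + 1), (if |x j| < 1 then p j else 0)
        ≤ ε * ∑ j ∈ B n M k, p j := by
      intro k
      set PB : ℝ := ∑ j ∈ B n M k, p j with hPB
      have hPB0 : 0 ≤ PB := Finset.sum_nonneg fun j _ => hp0 j
      have hMk : (0 : ℝ) < (M : ℝ) ^ (k + 1) := by
        have : (0 : ℝ) < M := by exact_mod_cast (by omega : 0 < M)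
        positivity
      have hpj : ∀ j ∈ B n M (k + 1), p j ≤ 2 / (M : ℝ) ^ (k + 1) * PB := by
        intro j hj
        have h3 := card_B_ge hM2 k j hj
        have h4 : ((B n M k).card : ℝ) * p j ≤ PB := by
          have h5 := Finset.card_nsmul_le_sum (B n M k) p (p j) (by
            intro i hi
            apply hp
            unfold B at hi hj
            rw [Finset.mem_filter] at hi hj
            have : Nat.log M i < Nat.log M j := by omega
            have h6 : (i : ℕ) < j := by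
              by_contra hcon
              push Not at hcon
              have := Nat.log_mono_right (b := M) hcon
              omega
            exact h6.le)
          rwa [nsmul_eq_mul] at h5
        have h5 : (M : ℝ) ^ (k + 1) / 2 * p j ≤ PB :=
          (mul_le_mul_of_nonneg_right h3 (hp0 j)).trans h4
        rw [div_mul_eq_mul_div, le_div_iff₀ hMk]
        linarith
      have h3 : ∑ j ∈ B n M (k + 1), (if |x j| < 1 then p j else 0)
          = ∑ j ∈ (B n M (k + 1)).filter (fun j => |X (k + 1) j| < 1), p j := by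
        rw [Finset.sum_filter]
        refine Finset.sum_congr rfl fun j hj => ?_
        rw [hxB (k + 1) j hj]
      rw [h3]
      have h4 : ∑ j ∈ (B n M (k + 1)).filter (fun j => |X (k + 1) j| < 1), p j
          ≤ (((B n M (k + 1)).filter (fun j => |X (k + 1) j| < 1)).card : ℝ)
            * (2 / (M : ℝ) ^ (k + 1) * PB) := by
        have := Finset.sum_le_card_nsmul
          ((B n M (k + 1)).filter (fun j => |X (k + 1) j| < 1)) p
          (2 / (M : ℝ) ^ (k + 1) * PB) (fun j hj => hpj j (Finset.mem_filter.mp hj).1)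
        rwa [nsmul_eq_mul] at this
      refine h4.trans ?_
      have h5 := hX3 (k + 1)
      calc _ ≤ ((M : ℝ) ^ (k + 1) * (ε / 2)) * (2 / (M : ℝ) ^ (k + 1) * PB) :=
            mul_le_mul_of_nonneg_right h5 (by positivity)
        _ = ε * PB := by field_simp
    rw [hfib, hfib p]
    cases n with
    | zero => simp
    | succ m =>
      rw [Finset.sum_range_succ', Finset.mul_sum]
      have h3 : ∑ k ∈ Finset.range m, ∑ j ∈ B (m + 1) M (k + 1), (if |x j| < 1 then p j else 0)
          ≤ ∑ k ∈ Finset.range m, ε * ∑ j ∈ B (m + 1) M k, p j :=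
        Finset.sum_le_sum fun k _ => hsucc k
      have h4 : 0 ≤ ε * ∑ j ∈ B (m + 1) M m, p j :=
        mul_nonneg hε0.le (Finset.sum_nonneg fun j _ => hp0 j)
      rw [Finset.sum_range_succ (fun k => ε * ∑ j ∈ B (m + 1) M k, p j)]
      linarith

/-- The bound of the second kind. -/
theorem cst_le (t ε Y : ℝ) (hε0 : 0 < ε) (hε2 : ε ≤ 1 / 2)
    (hY : Y ≤ 45 * Real.log (1 / ε)) :
    cst t Y ≤ 7800 * Real.sqrt (Real.sqrt (Real.log (1 / ε))) * Real.sqrt t := by
  have hL0 : 0 < Real.log (1 / ε) := by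
    apply Real.log_pos
    rw [lt_div_iff₀ hε0]; linarith
  have h1 : Real.sqrt (960 * Y) ≤ 208 * Real.sqrt (Real.log (1 / ε)) := by
    have h2 : 960 * Y ≤ (208 * Real.sqrt (Real.log (1 / ε))) ^ 2 := by
      rw [mul_pow, Real.sq_sqrt hL0.le]
      linarith
    have h3 := Real.sqrt_le_sqrt h2
    rwa [Real.sqrt_sq (by positivity)] at h3
  have h2 : Real.sqrt (Real.sqrt (960 * Y)) ≤ 15 * Real.sqrt (Real.sqrt (Real.log (1 / ε))) := by
    have h3 : Real.sqrt (960 * Y) ≤ (15 * Real.sqrt (Real.sqrt (Real.log (1 / ε)))) ^ 2 := by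
      rw [mul_pow, Real.sq_sqrt (Real.sqrt_nonneg _)]
      have := Real.sqrt_nonneg (Real.log (1 / ε))
      linarith
    have h4 := Real.sqrt_le_sqrt h3
    rwa [Real.sqrt_sq (by positivity)] at h4
  unfold cst
  apply mul_le_mul_of_nonneg_right _ (Real.sqrt_nonneg _)
  linarith

/-- **One stage.** -/
theorem stage (a : I → Fin n → ℝ) (t : ℝ) (ht : 1 ≤ t) (a1 : ∀ i j, |a i j| ≤ 1)
    (hcol : ∀ j, ∑ i, a i j ^ 2 ≤ t) (x0 : Fin n → ℝ) (hx0 : ∀ j, |x0 j| ≤ 1)
    (b : I → ℝ) (hb0 : ∀ i, 0 < b i) (hb1 : ∀ i, b i ≤ 1)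
    (hb : ∀ i, b i = 1 ∨ ∑ j, (if |x0 j| < 1 then a i j ^ 2 else 0) ≤ t * b i ^ 4)
    (ε : ℝ) (hε0 : 0 < ε) (hε2 : ε ≤ 1 / 2) (p : Fin n → ℝ) (hp0 : ∀ j, 0 ≤ p j) :
    ∃ x : Fin n → ℝ, (∀ j, |x j| ≤ 1) ∧ (∀ j, |x0 j| = 1 → x j = x0 j) ∧
      (∀ i, |∑ j, a i j * (x j - x0 j)| ≤ fin t ε) ∧
      (∀ i, |∑ j, a i j * (x j - x0 j)| ≤
        7800 * Real.sqrt (Real.sqrt (Real.log (1 / ε))) * Real.sqrt t *
          (b i * (6 + Real.log (1 / b i)))) ∧
      ∑ j, (if |x j| < 1 then p j else 0) ≤ ε * ∑ j, (if |x0 j| < 1 then p j else 0) := by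
  classical
  obtain ⟨s, Y, h1, h2, h3, h4, h5, h6⟩ := H167KL.exists_params ε hε0 hε2
  set q : Fin n → ℝ := fun j => if |x0 j| < 1 then p j else 0 with hq
  have hq0 : ∀ j, 0 ≤ q j := by
    intro j
    simp only [hq]
    split_ifs
    · exact hp0 j
    · exact le_rfl
  set c : I → Fin n → ℝ := fun i j => if |x0 j| < 1 then a i j else 0 with hc
  have hcsq : ∀ i j, c i j ^ 2 = if |x0 j| < 1 then a i j ^ 2 else 0 := by
    intro i j
    simp only [hc]
    split_ifs
    · rfl
    · norm_num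
  let σ : Equiv.Perm (Fin n) := Tuple.sort (fun j => -q j)
  have hσ : Antitone (q ∘ σ) := by
    have h7 : Monotone ((fun j => -q j) ∘ σ) := Tuple.monotone_sort _
    intro i j hij
    have := h7 hij
    simp only [Function.comp_apply] at this ⊢
    linarith
  obtain ⟨x, hx1, hxf, hx2, hx2', hx3⟩ := stage_aux (fun i j => c i (σ j)) t ht
    (fun i j => by
      simp only [hc]
      split_ifs
      · exact a1 i _
      · simp)
    (fun j => by
      refine le_trans (Finset.sum_le_sum fun i _ => ?_) (hcol (σ j))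
      rw [hcsq]
      split_ifs
      · exact le_rfl
      · exact sq_nonneg _)
    (fun j => x0 (σ j)) (fun j => hx0 _) b hb0 hb1
    (fun i => by
      rcases hb i with h | h
      · exact Or.inl h
      · right
        refine le_trans (le_of_eq ?_) h
        rw [← Equiv.sum_comp σ (fun j => if |x0 j| < 1 then a i j ^ 2 else 0)]
        exact Finset.sum_congr rfl fun j _ => hcsq i _)
    s h1 Y h2 h3 ε hε0 (by linarith) h4 h5 (q ∘ σ) (fun j => hq0 _) hσ
  have hfz : ∀ j, |x0 j| = 1 → x (σ.symm j) = x0 j := by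
    intro j hj
    have := hxf (σ.symm j) (by rw [Equiv.apply_symm_apply]; exact hj)
    rwa [Equiv.apply_symm_apply] at this
  have h7 : ∀ i, ∑ j, a i j * (x (σ.symm j) - x0 j) = ∑ j, c i (σ j) * (x j - x0 (σ j)) := by
    intro i
    have h8 : ∑ j, a i j * (x (σ.symm j) - x0 j) = ∑ j, c i j * (x (σ.symm j) - x0 j) := by
      refine Finset.sum_congr rfl fun j _ => ?_
      simp only [hc]
      by_cases hj : |x0 j| < 1
      · rw [if_pos hj]
      · rw [hfz j (le_antisymm (hx0 j) (not_lt.1 hj)), sub_self, mul_zero, mul_zero]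
    rw [h8, ← Equiv.sum_comp σ]
    refine Finset.sum_congr rfl fun j _ => ?_
    rw [Equiv.symm_apply_apply]
  refine ⟨fun j => x (σ.symm j), fun j => hx1 _, hfz, ?_, ?_, ?_⟩
  · intro i
    rw [h7]
    exact (hx2 i).trans (cost_le_fin t ε Y ht hε0 hε2 h6)
  · intro i
    rw [h7]
    refine (hx2' i).trans ?_
    have hbi := hb0 i
    have hlog : 0 ≤ Real.log (1 / b i) :=
      Real.log_nonneg (by rw [le_div_iff₀ hbi]; linarith [hb1 i])
    exact mul_le_mul_of_nonneg_right (cst_le t ε Y hε0 hε2 h6) (by positivity)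
  · have h8 : ∑ j, (if |x (σ.symm j)| < 1 then p j else 0)
        ≤ ∑ j, (if |x j| < 1 then q (σ j) else 0) := by
      rw [← Equiv.sum_comp σ]
      refine Finset.sum_le_sum fun j _ => ?_
      rw [Equiv.symm_apply_apply]
      by_cases hj : |x j| < 1
      · rw [if_pos hj, if_pos hj]
        simp only [hq]
        rw [if_pos]
        by_contra hcon
        have h9 := hxf j (le_antisymm (hx0 _) (not_lt.1 hcon))
        rw [h9] at hj
        exact hcon hj
      · rw [if_neg hj, if_neg hj]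
    refine h8.trans (hx3.trans (le_of_eq ?_))
    congr 1
    simp only [Function.comp_apply]
    exact Equiv.sum_comp σ q

end Pool.Agent.K1H87.KT
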